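import Mathlib

/-!
# Probabilities attached to one random row with i.i.d. symmetric coordinates
-/

open MeasureTheory

namespace Pool.Agent.Lib.MP_f7f952_pr

section Row

variable {d : ℕ} (η : Measure ℝ) [IsProbabilityMeasure η]

/-- the law of a row with i.i.d. coordinates -/
noncomputable def rowLaw (η : Measure ℝ) (d : ℕ) : Measure (Fin d → ℝ) :=
  Measure.pi fun _ : Fin d => η

instance : IsProbabilityMeasure (rowLaw η d) := by
  unfold rowLaw
  infer_instance

/-- probability that an entry is nonzero -/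
noncomputable def nz (η : Measure ℝ) : ℝ := η.real {0}ᶜ

omit [IsProbabilityMeasure η] in
lemma nz_nonneg : 0 ≤ nz η := measureReal_nonneg

lemma nz_le_one : nz η ≤ 1 := measureReal_le_one

lemma real_zero : η.real {0} = 1 - nz η := by
  unfold nz
  rw [probReal_compl_eq_one_sub (measurableSet_singleton 0)]
  ring

lemma real_pi_pi (s : Fin d → Set ℝ) :
    (rowLaw η d).real (Set.univ.pi s) = ∏ i, η.real (s i) := by
  unfold rowLaw Measure.real
  rw [Measure.pi_pi, ENNReal.toReal_prod]

lemma rowLaw_flip (hη : η.map (fun x => -x) = η) (T : Finset (Fin d)) :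
    MeasurePreserving (fun (y : Fin d → ℝ) j => if j ∈ T then -y j else y j)
      (rowLaw η d) (rowLaw η d) := by
  unfold rowLaw
  have h : ∀ j : Fin d, MeasurePreserving (fun x : ℝ => if j ∈ T then -x else x) η η := by
    intro j
    by_cases hj : j ∈ T
    · simp only [hj, if_true]
      exact ⟨by fun_prop, hη⟩
    · simp only [hj, if_false]
      exact MeasurePreserving.id η
  exact measurePreserving_pi _ _ h

lemma rowLaw_symm (hη : η.map (fun x => -x) = η) :
    (rowLaw η d).map (fun v => -v) = rowLaw η d := by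
  have := (rowLaw_flip (d := d) η hη Finset.univ).map_eq
  simp only [Finset.mem_univ, if_true] at this
  exact this

/-- exactly one nonzero entry in `T` -/
def OneIn (T : Finset (Fin d)) : Set (Fin d → ℝ) :=
  {y | ∃ j ∈ T, y j ≠ 0 ∧ ∀ i ∈ T, i ≠ j → y i = 0}

lemma oneIn_eq (T : Finset (Fin d)) :
    OneIn T = ⋃ j ∈ T, Set.univ.pi
      (fun i => if i = j then ({0}ᶜ : Set ℝ) else if i ∈ T then {0} else Set.univ) := by
  ext y
  simp only [OneIn, Set.mem_ofPred_eq, Set.mem_iUnion, Set.mem_pi, Set.mem_univ, forall_true_left,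
    exists_prop]
  constructor
  · rintro ⟨j, hj, hyj, hy⟩
    refine ⟨j, hj, fun i => ?_⟩
    by_cases hij : i = j
    · subst hij; simpa using hyj
    · by_cases hiT : i ∈ T
      · simp [hij, hiT, hy i hiT hij]
      · simp [hij, hiT]
  · rintro ⟨j, hj, hy⟩
    refine ⟨j, hj, ?_, fun i hi hij => ?_⟩
    · simpa using hy j
    · have := hy i
      simpa [hij, hi] using this

lemma measurableSet_oneIn (T : Finset (Fin d)) : MeasurableSet (OneIn T) := by
  rw [oneIn_eq]
  refine Finset.measurableSet_biUnion _ fun j _ => MeasurableSet.univ_pi fun i => ?_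
  by_cases hij : i = j
  · simp [hij]
  · by_cases hiT : i ∈ T <;> simp [hij, hiT]

lemma real_oneIn (T : Finset (Fin d)) :
    (rowLaw η d).real (OneIn T) = T.card * (nz η * (1 - nz η) ^ (T.card - 1)) := by
  rw [oneIn_eq, measureReal_biUnion_finset]
  · have h : ∀ j ∈ T, (rowLaw η d).real (Set.univ.pi
      (fun i => if i = j then ({0}ᶜ : Set ℝ) else if i ∈ T then {0} else Set.univ)) =
        nz η * (1 - nz η) ^ (T.card - 1) := by
      intro j hj
      rw [real_pi_pi]
      have h1 : ∀ i : Fin d, η.real (if i = j then ({0}ᶜ : Set ℝ) else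
          if i ∈ T then {0} else Set.univ) =
          (if i = j then nz η else if i ∈ T then 1 - nz η else 1) := by
        intro i
        by_cases hij : i = j
        · simp [hij, nz]
        · by_cases hiT : i ∈ T
          · simp [hij, hiT, real_zero]
          · simp [hij, hiT]
      simp only [h1]
      rw [← Finset.mul_prod_erase Finset.univ _ (Finset.mem_univ j)]
      rw [if_pos rfl]
      congr 1
      have h2 : ∏ i ∈ Finset.univ.erase j, (if i = j then nz η else if i ∈ T then 1 - nz η else 1) =
          ∏ i ∈ Finset.univ.erase j, (if i ∈ T.erase j then 1 - nz η else 1) := by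
        refine Finset.prod_congr rfl fun i hi => ?_
        have hij : i ≠ j := (Finset.mem_erase.1 hi).1
        simp [hij]
      rw [h2, Finset.prod_ite]
      simp only [Finset.prod_const_one, mul_one, Finset.prod_const]
      congr 1
      rw [← Finset.card_erase_of_mem hj]
      congr 1
      ext i
      simp only [Finset.mem_filter, Finset.mem_erase, Finset.mem_univ, and_true]
      tauto
    rw [Finset.sum_congr rfl h, Finset.sum_const, nsmul_eq_mul]
  · intro j hj k hk hjk
    rw [Function.onFun, Set.disjoint_left]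
    intro y hy hy'
    simp only [Set.mem_pi, Set.mem_univ, forall_true_left] at hy hy'
    have h1 := hy j
    have h2 := hy' j
    have hjT : j ∈ T := hj
    simp only [if_true] at h1
    rw [if_neg hjk, if_pos hjT] at h2
    exact h1 h2
  · intro j _
    refine MeasurableSet.univ_pi fun i => ?_
    by_cases hij : i = j
    · simp [hij]
    · by_cases hiT : i ∈ T <;> simp [hij, hiT]

lemma sum_ne_zero_of_oneIn {T : Finset (Fin d)} {w y : Fin d → ℝ} (hw : ∀ j ∈ T, w j ≠ 0)
    (hy : y ∈ OneIn T) : ∑ j ∈ T, w j * y j ≠ 0 := by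
  obtain ⟨j, hj, hyj, hy⟩ := hy
  rw [Finset.sum_eq_single_of_mem j hj]
  · exact mul_ne_zero (hw j hj) hyj
  · intro i hi hij
    rw [hy i hi hij, mul_zero]

lemma measurableSet_hyper (T : Finset (Fin d)) (w : Fin d → ℝ) :
    MeasurableSet {y : Fin d → ℝ | ∑ j ∈ T, w j * y j = 0} := by
  apply measurableSet_eq_fun <;> fun_prop

lemma real_hyper_le (T : Finset (Fin d)) (w : Fin d → ℝ) (hw : ∀ j ∈ T, w j ≠ 0) :
    (rowLaw η d).real {y | ∑ j ∈ T, w j * y j = 0} ≤
      1 - T.card * (nz η * (1 - nz η) ^ (T.card - 1)) := by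
  rw [← real_oneIn, ← probReal_compl_eq_one_sub (measurableSet_oneIn T)]
  apply measureReal_mono
  · intro y hy hy'
    exact sum_ne_zero_of_oneIn hw hy' hy
  · exact measure_ne_top _ _

lemma real_hyper_le_half (hη : η.map (fun x => -x) = η) (T : Finset (Fin d)) (w : Fin d → ℝ) :
    (rowLaw η d).real {y | ∑ j, w j * y j = 0} ≤
      (1 + (rowLaw η d).real {y | ∑ j ∈ T, w j * y j = 0}) / 2 := by
  classical
  set U := {y : Fin d → ℝ | ∑ j, w j * y j = 0} with hU
  have hUm : MeasurableSet U := measurableSet_hyper Finset.univ w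
  set F := (fun (y : Fin d → ℝ) j => if j ∈ T then -y j else y j) with hF
  have hmp := rowLaw_flip (d := d) η hη T
  have hV : (rowLaw η d).real (F ⁻¹' U) = (rowLaw η d).real U := by
    unfold Measure.real
    rw [hmp.measure_preimage hUm.nullMeasurableSet]
  have h1 := measureReal_union_add_inter (μ := rowLaw η d) (s := U) (t := F ⁻¹' U)
    (hmp.measurable hUm)
  have h2 : (rowLaw η d).real (U ∪ F ⁻¹' U) ≤ 1 := measureReal_le_one
  have h3 : (rowLaw η d).real (U ∩ F ⁻¹' U) ≤
      (rowLaw η d).real {y | ∑ j ∈ T, w j * y j = 0} := by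
    apply measureReal_mono
    · rintro y ⟨hy, hy'⟩
      simp only [hU, hF, Set.mem_preimage, Set.mem_ofPred_eq] at hy hy' ⊢
      have e : ∑ j, w j * y j - ∑ j, w j * (if j ∈ T then -y j else y j) =
          2 * ∑ j ∈ T, w j * y j := by
        rw [← Finset.sum_sub_distrib, Finset.mul_sum, ← Finset.sum_subset (Finset.subset_univ T)]
        · refine Finset.sum_congr rfl fun j hj => ?_
          rw [if_pos hj]
          ring
        · intro j _ hj
          rw [if_neg hj]
          ring
      rw [hy, hy'] at e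
      linarith
    · exact measure_ne_top _ _
  rw [hV] at h1
  linarith

/-- Spread vectors: the hyperplane atom is bounded away from one. -/
lemma real_hyper_spread (hη : η.map (fun x => -x) = η) (w : Fin d → ℝ) (θ : ℝ) (hθ : 0 < θ)
    (hθ2 : θ ≤ 1 / 2) (ha : 0 < nz η) (S : Finset (Fin d)) (hS : ∀ j ∈ S, w j ≠ 0)
    (hcard : θ / nz η ≤ S.card) :
    (rowLaw η d).real {y | ∑ j, w j * y j = 0} ≤ 1 - θ / 4 := by
  set t := ⌈θ / nz η⌉₊ with ht
  have ht0 : 0 < t := by
    rw [ht, Nat.ceil_pos]
    positivity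
  have htS : t ≤ S.card := Nat.ceil_le.2 hcard
  obtain ⟨T, hTS, hT⟩ := Finset.exists_subset_card_eq htS
  have h1 := real_hyper_le_half (d := d) η hη T w
  have h2 := real_hyper_le (d := d) η T w (fun j hj => hS j (hTS hj))
  have h3 : (θ : ℝ) ≤ T.card * nz η := by
    rw [hT]
    have := Nat.le_ceil (θ / nz η)
    rw [div_le_iff₀ ha] at this
    exact this
  have h4 : (1 / 2 : ℝ) ≤ (1 - nz η) ^ (T.card - 1) := by
    have hb := one_add_mul_le_pow (a := -nz η) (by linarith [nz_le_one η]) (T.card - 1)
    have h5 : ((T.card - 1 : ℕ) : ℝ) * nz η ≤ θ := by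
      rw [hT]
      have h6 : ((t - 1 : ℕ) : ℝ) < θ / nz η := by
        rw [← Nat.lt_ceil]
        omega
      rw [lt_div_iff₀ ha] at h6
      exact h6.le
    have : (1 + -nz η) ^ (T.card - 1) = (1 - nz η) ^ (T.card - 1) := by ring_nf
    rw [this] at hb
    linarith
  have h5 : θ / 2 ≤ T.card * (nz η * (1 - nz η) ^ (T.card - 1)) := by
    rw [← mul_assoc]
    calc θ / 2 = θ * (1 / 2) := by ring
      _ ≤ (T.card * nz η) * (1 - nz η) ^ (T.card - 1) := by
        apply mul_le_mul h3 h4 (by norm_num)
        have := nz_nonneg η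
        positivity
  linarith

end Row

end Pool.Agent.Lib.MP_f7f952_pr
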