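import Mathlib

/-!
# Whitney's count of realizable sign patterns of finitely many linear functionals
-/

open Module Submodule

namespace Pool.Agent.Lib.MP_f7f952_pr

/-- The sign `1` or `-1` attached to a boolean. -/
def sgn (b : Bool) : ℝ := if b then 1 else -1

/-- The sign pattern `ε` is realized by some vector `y` for the functionals `f i`. -/
def Realizable {n : ℕ} {V : Type} [AddCommGroup V] [Module ℝ V]
    (f : Fin n → Dual ℝ V) (ε : Fin n → Bool) : Prop :=
  ∃ y : V, ∀ i, 0 < sgn (ε i) * f i y

/-- The rank of the subfamily selected by `χ`. -/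
noncomputable def subrank {n : ℕ} {V : Type} [AddCommGroup V] [Module ℝ V]
    (f : Fin n → Dual ℝ V) (χ : Fin n → Bool) : ℕ :=
  finrank ℝ (span ℝ (f '' {i | χ i = true}))

/-- The number of selected indices. -/
def csize {n : ℕ} (χ : Fin n → Bool) : ℕ := ∑ i, (if χ i then 1 else 0)

lemma finrank_insert_gen {E F : Type} [AddCommGroup E] [Module ℝ E] [AddCommGroup F]
    [Module ℝ F] (r : E →ₗ[ℝ] F) (a : E) (ha : a ≠ 0) (hker : LinearMap.ker r = span ℝ {a})
    (G : Set E) (hG : G.Finite) :
    finrank ℝ (span ℝ (insert a G)) = finrank ℝ (span ℝ (r '' G)) + 1 := by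
  have hWfin : FiniteDimensional ℝ (span ℝ (insert a G)) :=
    FiniteDimensional.span_of_finite ℝ (hG.insert a)
  have h1 := LinearMap.finrank_range_add_finrank_ker (r.comp (span ℝ (insert a G)).subtype)
  have hra : r a = 0 := by
    rw [← LinearMap.mem_ker, hker]
    exact mem_span_singleton_self a
  have hrange : LinearMap.range (r.comp (span ℝ (insert a G)).subtype) = span ℝ (r '' G) := by
    rw [LinearMap.range_comp, Submodule.range_subtype, Submodule.map_span, Set.image_insert_eq,
      hra, Submodule.span_insert_zero]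
  have hle : span ℝ {a} ≤ span ℝ (insert a G) := span_mono (by simp)
  have hk : LinearMap.ker (r.comp (span ℝ (insert a G)).subtype) =
      (span ℝ {a}).comap (span ℝ (insert a G)).subtype := by
    rw [LinearMap.ker_comp, hker]
  have h2 : finrank ℝ (LinearMap.ker (r.comp (span ℝ (insert a G)).subtype)) = 1 := by
    rw [hk, (Submodule.comapSubtypeEquivOfLe hle).finrank_eq]
    exact finrank_span_singleton ha
  rw [hrange, h2] at h1
  exact h1.symm

lemma rank_insert {V : Type} [AddCommGroup V] [Module ℝ V] (a : Dual ℝ V) (ha : a ≠ 0)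
    (G : Set (Dual ℝ V)) (hG : G.Finite) :
    finrank ℝ (span ℝ (insert a G)) =
      finrank ℝ (span ℝ ((LinearMap.ker a).subtype.dualMap '' G)) + 1 := by
  apply finrank_insert_gen _ a ha _ G hG
  ext φ
  rw [LinearMap.mem_ker, mem_span_singleton]
  constructor
  · intro h
    have h2 : LinearMap.ker a ≤ LinearMap.ker φ := by
      intro x hx
      have := LinearMap.congr_fun h ⟨x, hx⟩
      simpa using this
    have h3 : φ ∈ span ℝ (Set.range (fun _ : Unit => a)) := by
      apply mem_span_of_iInf_ker_le_ker
      simpa using h2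
    simp only [Set.range_const] at h3
    exact mem_span_singleton.1 h3
  · rintro ⟨c, rfl⟩
    ext x
    have hx : a x = 0 := x.2
    simp [hx]

lemma sgn_true : sgn true = 1 := rfl
lemma sgn_false : sgn false = -1 := rfl

/-- Small perturbations keep finitely many strict inequalities. -/
lemma perturb {n : ℕ} {V : Type} [AddCommGroup V] [Module ℝ V]
    (f : Fin n → Dual ℝ V) (ε : Fin n → Bool) (y v : V) (h : ∀ i, 0 < sgn (ε i) * f i y) :
    ∃ t : ℝ, 0 < t ∧ (∀ i, 0 < sgn (ε i) * f i (y + t • v)) ∧
      (∀ i, 0 < sgn (ε i) * f i (y - t • v)) := by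
  have h1 : ∀ᶠ t in nhdsWithin (0 : ℝ) (Set.Ioi 0), ∀ i, 0 < sgn (ε i) * f i (y + t • v) := by
    rw [Filter.eventually_all]
    intro i
    apply Filter.Eventually.filter_mono nhdsWithin_le_nhds
    have hc : Continuous (fun t : ℝ => sgn (ε i) * f i (y + t • v)) := by
      have : (fun t : ℝ => sgn (ε i) * f i (y + t • v)) =
          fun t : ℝ => sgn (ε i) * (f i y + t * f i v) := by
        ext t
        simp
      rw [this]
      fun_prop
    have h0 : 0 < (fun t : ℝ => sgn (ε i) * f i (y + t • v)) 0 := by simpa using h i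
    exact hc.continuousAt.eventually (lt_mem_nhds h0)
  have h2 : ∀ᶠ t in nhdsWithin (0 : ℝ) (Set.Ioi 0), ∀ i, 0 < sgn (ε i) * f i (y - t • v) := by
    rw [Filter.eventually_all]
    intro i
    apply Filter.Eventually.filter_mono nhdsWithin_le_nhds
    have hc : Continuous (fun t : ℝ => sgn (ε i) * f i (y - t • v)) := by
      have : (fun t : ℝ => sgn (ε i) * f i (y - t • v)) =
          fun t : ℝ => sgn (ε i) * (f i y - t * f i v) := by
        ext t
        simp
      rw [this]
      fun_prop
    have h0 : 0 < (fun t : ℝ => sgn (ε i) * f i (y - t • v)) 0 := by simpa using h i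
    exact hc.continuousAt.eventually (lt_mem_nhds h0)
  have h3 : ∀ᶠ t in nhdsWithin (0 : ℝ) (Set.Ioi 0), (0 : ℝ) < t := self_mem_nhdsWithin
  obtain ⟨t, ht1, ht2, ht3⟩ := (h1.and (h2.and h3)).exists
  exact ⟨t, ht3, ht1, ht2⟩

lemma realizable_cons {n : ℕ} {V : Type} [AddCommGroup V] [Module ℝ V]
    (f : Fin (n + 1) → Dual ℝ V) (b : Bool) (ε : Fin n → Bool) :
    Realizable f (Fin.cons b ε) ↔
      ∃ y : V, 0 < sgn b * f 0 y ∧ ∀ i, 0 < sgn (ε i) * f (Fin.succ i) y := by
  unfold Realizable
  constructor
  · rintro ⟨y, hy⟩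
    refine ⟨y, ?_, ?_⟩
    · simpa using hy 0
    · intro i
      simpa using hy i.succ
  · rintro ⟨y, hy0, hy⟩
    refine ⟨y, fun i => ?_⟩
    refine Fin.cases ?_ ?_ i
    · simpa using hy0
    · intro j
      simpa using hy j

/-- either sign extends iff the deleted pattern is realizable (nonzero first functional) -/
lemma or_iff {n : ℕ} {V : Type} [AddCommGroup V] [Module ℝ V]
    (f : Fin (n + 1) → Dual ℝ V) (h0 : f 0 ≠ 0) (ε : Fin n → Bool) :
    (Realizable f (Fin.cons true ε) ∨ Realizable f (Fin.cons false ε)) ↔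
      Realizable (fun i : Fin n => f i.succ) ε := by
  rw [realizable_cons, realizable_cons]
  constructor
  · rintro (⟨y, _, hy⟩ | ⟨y, _, hy⟩) <;> exact ⟨y, hy⟩
  · rintro ⟨y, hy⟩
    rcases lt_trichotomy (f 0 y) 0 with h | h | h
    · right
      exact ⟨y, by rw [sgn_false]; linarith, hy⟩
    · left
      obtain ⟨v, hv⟩ : ∃ v, f 0 v ≠ 0 := by
        by_contra hcon
        push Not at hcon
        exact h0 (LinearMap.ext hcon)
      wlog hpos : 0 < f 0 v generalizing v
      · refine this (-v) (by simpa using hv) ?_
        rw [map_neg]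
        have : f 0 v < 0 := lt_of_le_of_ne (not_lt.1 hpos) hv
        linarith
      obtain ⟨t, ht, hp, _⟩ := perturb (fun i : Fin n => f i.succ) ε y v hy
      refine ⟨y + t • v, ?_, hp⟩
      rw [sgn_true, map_add, map_smul, h, smul_eq_mul]
      have := mul_pos ht hpos
      linarith
    · left
      exact ⟨y, by rw [sgn_true]; linarith, hy⟩

/-- both signs extend iff the restricted pattern is realizable -/
lemma and_iff {n : ℕ} {V : Type} [AddCommGroup V] [Module ℝ V]
    (f : Fin (n + 1) → Dual ℝ V) (h0 : f 0 ≠ 0) (ε : Fin n → Bool) :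
    (Realizable f (Fin.cons true ε) ∧ Realizable f (Fin.cons false ε)) ↔
      Realizable (fun i : Fin n => (LinearMap.ker (f 0)).subtype.dualMap (f i.succ)) ε := by
  rw [realizable_cons, realizable_cons]
  constructor
  · rintro ⟨⟨y, hy0, hy⟩, ⟨z, hz0, hz⟩⟩
    rw [sgn_true] at hy0
    rw [sgn_false] at hz0
    have ha : 0 < f 0 y := by linarith
    have hb : 0 < - f 0 z := by linarith
    refine ⟨⟨(- f 0 z) • y + (f 0 y) • z, ?_⟩, ?_⟩
    · rw [LinearMap.mem_ker, map_add, map_smul, map_smul, smul_eq_mul, smul_eq_mul]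
      ring
    · intro i
      simp only [LinearMap.dualMap_apply, Submodule.subtype_apply, map_add, map_smul, smul_eq_mul]
      have e1 := mul_pos hb (hy i)
      have e2 := mul_pos ha (hz i)
      nlinarith [e1, e2]
  · rintro ⟨⟨y, hyk⟩, hy⟩
    rw [LinearMap.mem_ker] at hyk
    simp only [LinearMap.dualMap_apply, Submodule.subtype_apply] at hy
    obtain ⟨v, hv⟩ : ∃ v, f 0 v ≠ 0 := by
      by_contra hcon
      push Not at hcon
      exact h0 (LinearMap.ext hcon)
    wlog hpos : 0 < f 0 v generalizing v
    · refine this (-v) (by simpa using hv) ?_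
      rw [map_neg]
      have : f 0 v < 0 := lt_of_le_of_ne (not_lt.1 hpos) hv
      linarith
    obtain ⟨t, ht, hp, hm⟩ := perturb (fun i : Fin n => f i.succ) ε y v hy
    have hm2 := mul_pos ht hpos
    refine ⟨⟨y + t • v, ?_, hp⟩, ⟨y - t • v, ?_, hm⟩⟩
    · rw [sgn_true, map_add, map_smul, hyk, smul_eq_mul]
      linarith
    · rw [sgn_false, map_sub, map_smul, hyk, smul_eq_mul]
      linarith

open Classical in
/-- indicator as an integer -/
noncomputable def ind (P : Prop) : ℤ := if P then 1 else 0

lemma ind_or_add_and (P Q : Prop) : ind P + ind Q = ind (P ∨ Q) + ind (P ∧ Q) := by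
  unfold ind
  by_cases hP : P <;> by_cases hQ : Q <;> simp [hP, hQ]

lemma sum_cons {n : ℕ} (F : (Fin (n + 1) → Bool) → ℤ) :
    ∑ ε, F ε = ∑ ε : Fin n → Bool, (F (Fin.cons true ε) + F (Fin.cons false ε)) := by
  have h := Fintype.sum_equiv (Fin.consEquiv (fun _ : Fin (n + 1) => Bool))
    (fun p => F (Fin.cons p.1 p.2)) F (fun p => rfl)
  rw [← h, Fintype.sum_prod_type]
  simp only [Fintype.sum_bool]
  rw [Finset.sum_add_distrib]

lemma csize_cons {n : ℕ} (b : Bool) (χ : Fin n → Bool) :
    csize (Fin.cons b χ) = (if b then 1 else 0) + csize χ := by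
  unfold csize
  rw [Fin.sum_univ_succ]
  simp

lemma image_cons_true {n : ℕ} {V : Type} [AddCommGroup V] [Module ℝ V]
    (f : Fin (n + 1) → Dual ℝ V) (χ : Fin n → Bool) :
    f '' {i | (Fin.cons true χ : Fin (n + 1) → Bool) i = true} =
      insert (f 0) ((fun i : Fin n => f i.succ) '' {i | χ i = true}) := by
  ext φ
  simp only [Set.mem_image, Set.mem_ofPred_eq, Set.mem_insert_iff]
  constructor
  · rintro ⟨i, hi, rfl⟩
    revert hi
    refine Fin.cases ?_ ?_ i
    · intro _; left; rfl
    · intro j hj
      right
      exact ⟨j, by simpa using hj, rfl⟩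
  · rintro (h | ⟨j, hj, rfl⟩)
    · exact ⟨0, by simp, h.symm⟩
    · exact ⟨j.succ, by simpa using hj, rfl⟩

lemma image_cons_false {n : ℕ} {V : Type} [AddCommGroup V] [Module ℝ V]
    (f : Fin (n + 1) → Dual ℝ V) (χ : Fin n → Bool) :
    f '' {i | (Fin.cons false χ : Fin (n + 1) → Bool) i = true} =
      ((fun i : Fin n => f i.succ) '' {i | χ i = true}) := by
  ext φ
  simp only [Set.mem_image, Set.mem_ofPred_eq]
  constructor
  · rintro ⟨i, hi, rfl⟩
    revert hi
    refine Fin.cases ?_ ?_ i
    · intro h; simp at h
    · intro j hj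
      exact ⟨j, by simpa using hj, rfl⟩
  · rintro ⟨j, hj, rfl⟩
    exact ⟨j.succ, by simpa using hj, rfl⟩

/-- **Whitney's formula**: the number of realizable sign patterns equals the signed sum over
all subfamilies of `(-1)^(size + rank)`. -/
theorem whitney (n : ℕ) : ∀ (V : Type) [AddCommGroup V] [Module ℝ V] (f : Fin n → Dual ℝ V),
    ∑ ε : Fin n → Bool, ind (Realizable f ε) =
      ∑ χ : Fin n → Bool, (-1 : ℤ) ^ (csize χ + subrank f χ) := by
  induction n with
  | zero =>
    intro V _ _ f
    have h1 : ∀ ε : Fin 0 → Bool, ind (Realizable f ε) = 1 := by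
      intro ε
      unfold ind Realizable
      rw [if_pos]
      exact ⟨0, fun i => i.elim0⟩
    have h2 : ∀ χ : Fin 0 → Bool, (-1 : ℤ) ^ (csize χ + subrank f χ) = 1 := by
      intro χ
      have e : {i : Fin 0 | χ i = true} = ∅ := Set.eq_empty_of_isEmpty _
      unfold csize subrank
      rw [e, Set.image_empty, Submodule.span_empty]
      simp
    simp only [h1, h2]
  | succ n ih =>
    intro V _ _ f
    rw [sum_cons, sum_cons]
    have hsub_false : ∀ χ : Fin n → Bool,
        subrank f (Fin.cons false χ) = subrank (fun i : Fin n => f i.succ) χ := by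
      intro χ
      unfold subrank
      rw [image_cons_false]
    by_cases h0 : f 0 = 0
    · -- zero functional: no pattern is realizable
      have hL : ∀ ε : Fin n → Bool, ind (Realizable f (Fin.cons true ε)) +
          ind (Realizable f (Fin.cons false ε)) = 0 := by
        intro ε
        have : ∀ b, ¬ Realizable f (Fin.cons b ε) := by
          intro b
          rw [realizable_cons]
          rintro ⟨y, hy, _⟩
          rw [h0] at hy
          simp at hy
        unfold ind
        rw [if_neg (this true), if_neg (this false), add_zero]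
      have hR : ∀ χ : Fin n → Bool,
          (-1 : ℤ) ^ (csize (Fin.cons true χ) + subrank f (Fin.cons true χ)) +
          (-1 : ℤ) ^ (csize (Fin.cons false χ) + subrank f (Fin.cons false χ)) = 0 := by
        intro χ
        have h3 : subrank f (Fin.cons true χ) = subrank f (Fin.cons false χ) := by
          unfold subrank
          rw [image_cons_true, image_cons_false, h0, Submodule.span_insert_zero]
        rw [h3, csize_cons, csize_cons]
        simp only [if_true, Bool.false_eq_true, if_false, zero_add]
        rw [add_assoc, pow_add]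
        ring
      simp only [hL, hR, Finset.sum_const_zero]
    · have hL : ∀ ε : Fin n → Bool, ind (Realizable f (Fin.cons true ε)) +
          ind (Realizable f (Fin.cons false ε)) =
          ind (Realizable (fun i : Fin n => f i.succ) ε) +
          ind (Realizable
            (fun i : Fin n => (LinearMap.ker (f 0)).subtype.dualMap (f i.succ)) ε) := by
        intro ε
        rw [ind_or_add_and, or_iff f h0, and_iff f h0]
      have hR : ∀ χ : Fin n → Bool,
          (-1 : ℤ) ^ (csize (Fin.cons true χ) + subrank f (Fin.cons true χ)) +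
          (-1 : ℤ) ^ (csize (Fin.cons false χ) + subrank f (Fin.cons false χ)) =
          (-1 : ℤ) ^ (csize χ + subrank (fun i : Fin n => f i.succ) χ) +
          (-1 : ℤ) ^ (csize χ + subrank
            (fun i : Fin n => (LinearMap.ker (f 0)).subtype.dualMap (f i.succ)) χ) := by
        intro χ
        have h3 : subrank f (Fin.cons true χ) = subrank
            (fun i : Fin n => (LinearMap.ker (f 0)).subtype.dualMap (f i.succ)) χ + 1 := by
          unfold subrank
          rw [image_cons_true, rank_insert _ h0 _ (Set.toFinite _), Set.image_image]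
        rw [h3, hsub_false, csize_cons, csize_cons]
        simp only [if_true, Bool.false_eq_true, if_false, zero_add]
        rw [add_comm]
        congr 1
        rw [show 1 + csize χ + (subrank (fun i : Fin n =>
          (LinearMap.ker (f 0)).subtype.dualMap (f i.succ)) χ + 1) =
          (csize χ + subrank (fun i : Fin n =>
          (LinearMap.ker (f 0)).subtype.dualMap (f i.succ)) χ) + 2 by ring]
        rw [pow_add]
        norm_num
      simp only [hL, hR, Finset.sum_add_distrib]
      rw [ih, ih]

end Pool.Agent.Lib.MP_f7f952_pr
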