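import Mathlib
import Pool.Agent.Lib.MP_f7f952_pr.Whitney
import Pool.Agent.Lib.MP_f7f952_pr.Atoms

/-!
# A Littlewood-Offord bound for hyperplane atoms
-/

open MeasureTheory

namespace Pool.Agent.Lib.MP_f7f952_pr

lemma sgn_mul_pos_or {b : Bool} {c : ℝ} :
    sgn b * c = |c| ∨ sgn b * c = -|c| := by
  cases b
  · rw [sgn_false]
    rcases abs_choice c with h | h <;> rw [h]
    · right; ring
    · left; ring
  · rw [sgn_true]
    rcases abs_choice c with h | h <;> rw [h]
    · left; ring
    · right; ring

lemma sgn_eq_of_pos_iff {b b' : Bool} {c : ℝ} (hc : c ≠ 0)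
    (h : (0 < sgn b * c) ↔ (0 < sgn b' * c)) : b = b' := by
  cases b <;> cases b' <;> simp only [sgn_true, sgn_false] at h ⊢ <;>
  · exfalso
    rcases lt_or_gt_of_ne hc with h1 | h1
    · have h2 : 0 < -1 * c := by linarith
      have h3 : ¬ 0 < 1 * c := by linarith
      tauto
    · have h2 : ¬ 0 < -1 * c := by linarith
      have h3 : 0 < 1 * c := by linarith
      tauto

open Classical in
theorem littlewood_offord {α : Type} [Fintype α] [DecidableEq α] (c : α → ℝ) (hc : ∀ i, c i ≠ 0) :
    (Finset.univ.filter (fun ε : α → Bool => ∑ i, sgn (ε i) * c i = 0)).card ≤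
      (Fintype.card α).choose (Fintype.card α / 2) := by
  set Φ : (α → Bool) → Finset α := fun ε => Finset.univ.filter (fun i => 0 < sgn (ε i) * c i)
    with hΦ
  have hinj : Function.Injective Φ := by
    intro ε ε' h
    ext1 i
    apply sgn_eq_of_pos_iff (hc i)
    have := Finset.ext_iff.1 h i
    simpa [hΦ] using this
  rw [← Finset.card_image_of_injective _ hinj]
  apply IsAntichain.sperner
  intro A hA B hB hne hsub
  rw [Finset.mem_coe, Finset.mem_image] at hA hB
  obtain ⟨ε, hε, rfl⟩ := hA
  obtain ⟨ε', hε', rfl⟩ := hB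
  rw [Finset.mem_filter] at hε hε'
  have hle : ∀ i ∈ Finset.univ, sgn (ε i) * c i ≤ sgn (ε' i) * c i := by
    intro i _
    by_cases hi : 0 < sgn (ε i) * c i
    · have h1 : i ∈ Φ ε := by simp [hΦ, hi]
      have h2 := hsub h1
      simp only [hΦ, Finset.mem_filter, Finset.mem_univ, true_and] at h2
      rcases sgn_mul_pos_or (b := ε i) (c := c i) with h3 | h3
      · rcases sgn_mul_pos_or (b := ε' i) (c := c i) with h4 | h4
        · rw [h3, h4]
        · rw [h4] at h2
          have := abs_nonneg (c i)
          linarith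
      · rw [h3] at hi
        have := abs_nonneg (c i)
        linarith
    · rcases sgn_mul_pos_or (b := ε i) (c := c i) with h3 | h3
      · rw [h3] at hi
        exact absurd (abs_pos.2 (hc i)) hi
      · rw [h3]
        rcases sgn_mul_pos_or (b := ε' i) (c := c i) with h4 | h4
        · rw [h4]
          have := abs_nonneg (c i)
          linarith
        · rw [h4]
  obtain ⟨i, hi, hi'⟩ : ∃ i ∈ Φ ε', i ∉ Φ ε := by
    by_contra hcon
    push Not at hcon
    exact hne (Finset.Subset.antisymm hsub hcon)
  simp only [hΦ, Finset.mem_filter, Finset.mem_univ, true_and] at hi hi'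
  have hlt : sgn (ε i) * c i < sgn (ε' i) * c i := by
    linarith
  have := Finset.sum_lt_sum hle ⟨i, Finset.mem_univ i, hlt⟩
  rw [hε.2, hε'.2] at this
  exact lt_irrefl _ this

open Classical in
theorem littlewood_offord_gen {d : ℕ} (c : Fin d → ℝ) :
    (Finset.univ.filter (fun ε : Fin d → Bool => ∑ i, sgn (ε i) * c i = 0)).card ≤
      ((Finset.univ.filter (fun i => c i ≠ 0)).card).choose
        ((Finset.univ.filter (fun i => c i ≠ 0)).card / 2) *
      2 ^ (d - (Finset.univ.filter (fun i => c i ≠ 0)).card) := by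
  set N := (Finset.univ.filter (fun i => c i ≠ 0)).card with hN
  set e := Equiv.piEquivPiSubtypeProd (fun i : Fin d => c i ≠ 0) (fun _ => Bool) with he
  have hcard1 : Fintype.card {i : Fin d // c i ≠ 0} = N := by
    rw [Fintype.card_subtype]
  have hcard2 : Fintype.card {i : Fin d // ¬ c i ≠ 0} = d - N := by
    have := Fintype.card_subtype_compl (fun i : Fin d => c i ≠ 0)
    rw [this, hcard1, Fintype.card_fin]
  have h1 := littlewood_offord (fun i : {i : Fin d // c i ≠ 0} => c i) (fun i => i.2)
  rw [hcard1] at h1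
  calc (Finset.univ.filter (fun ε : Fin d → Bool => ∑ i, sgn (ε i) * c i = 0)).card
      ≤ ((Finset.univ.filter (fun ε : {i : Fin d // c i ≠ 0} → Bool =>
          ∑ i, sgn (ε i) * c i = 0)) ×ˢ
          (Finset.univ : Finset ({i : Fin d // ¬ c i ≠ 0} → Bool))).card := by
        apply Finset.card_le_card_of_injOn e
        · intro ε hε
          rw [Finset.mem_coe, Finset.mem_filter] at hε
          rw [Finset.mem_coe, Finset.mem_product]
          refine ⟨?_, Finset.mem_univ _⟩
          rw [Finset.mem_filter]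
          refine ⟨Finset.mem_univ _, ?_⟩
          have h2 := Fintype.sum_subtype_add_sum_subtype (fun i : Fin d => c i ≠ 0)
            (fun i => sgn (ε i) * c i)
          rw [hε.2] at h2
          have h3 : ∑ i : {i : Fin d // ¬ c i ≠ 0}, sgn (ε i) * c i = 0 := by
            apply Finset.sum_eq_zero
            rintro ⟨i, hi⟩ _
            have : c i = 0 := not_not.1 hi
            simp [this]
          rw [h3, add_zero] at h2
          exact h2
        · exact e.injective.injOn
    _ ≤ _ := by
        rw [Finset.card_product]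
        apply Nat.mul_le_mul h1
        rw [Finset.card_univ, Fintype.card_fun, hcard2, Fintype.card_bool]

lemma centralBinom_sq (n : ℕ) : (Nat.centralBinom n) ^ 2 * (2 * n + 1) ≤ 4 ^ (2 * n) := by
  induction n with
  | zero => simp
  | succ n ih =>
    have h := Nat.succ_mul_centralBinom_succ n
    have h1 : ((n + 1) * Nat.centralBinom (n + 1)) ^ 2 * (2 * n + 3) ≤
        (n + 1) ^ 2 * 4 ^ (2 * (n + 1)) := by
      rw [h]
      calc (2 * (2 * n + 1) * Nat.centralBinom n) ^ 2 * (2 * n + 3)
          = (Nat.centralBinom n ^ 2 * (2 * n + 1)) * (4 * ((2 * n + 1) * (2 * n + 3))) := by ring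
        _ ≤ 4 ^ (2 * n) * (4 * ((2 * n + 2) ^ 2)) := by
          apply Nat.mul_le_mul ih
          apply Nat.mul_le_mul_left
          nlinarith
        _ = (n + 1) ^ 2 * 4 ^ (2 * (n + 1)) := by ring
    have h2 : (n + 1) ^ 2 * (Nat.centralBinom (n + 1) ^ 2 * (2 * (n + 1) + 1)) ≤
        (n + 1) ^ 2 * 4 ^ (2 * (n + 1)) := by
      calc (n + 1) ^ 2 * (Nat.centralBinom (n + 1) ^ 2 * (2 * (n + 1) + 1)) =
          ((n + 1) * Nat.centralBinom (n + 1)) ^ 2 * (2 * n + 3) := by ring
        _ ≤ _ := h1
    exact Nat.le_of_mul_le_mul_left h2 (by positivity)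

lemma choose_half_sq (N : ℕ) : (N.choose (N / 2)) ^ 2 * N ≤ 4 ^ N := by
  rcases Nat.even_or_odd' N with ⟨n, rfl | rfl⟩
  · have h := centralBinom_sq n
    rw [Nat.centralBinom_eq_two_mul_choose] at h
    rw [show 2 * n / 2 = n by omega]
    refine le_trans ?_ h
    apply Nat.mul_le_mul_left
    omega
  · have h := centralBinom_sq (n + 1)
    have h2 : Nat.centralBinom (n + 1) = 2 * (2 * n + 1).choose n := by
      rw [Nat.centralBinom_eq_two_mul_choose, show 2 * (n + 1) = (2 * n + 1) + 1 by ring,
        Nat.choose_succ_succ]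
      have : (2 * n + 1).choose (n + 1) = (2 * n + 1).choose n := by
        apply Nat.choose_symm_of_eq_add
        ring
      rw [this]
      ring
    rw [h2] at h
    rw [show (2 * n + 1) / 2 = n by omega]
    have h3 : 4 * ((2 * n + 1).choose n ^ 2 * (2 * n + 1)) ≤ 4 * 4 ^ (2 * n + 1) := by
      calc 4 * ((2 * n + 1).choose n ^ 2 * (2 * n + 1))
          ≤ (2 * (2 * n + 1).choose n) ^ 2 * (2 * (n + 1) + 1) := by
            have : 0 ≤ (2 * n + 1).choose n ^ 2 := Nat.zero_le _
            nlinarith
        _ ≤ 4 ^ (2 * (n + 1)) := h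
        _ = 4 * 4 ^ (2 * n + 1) := by ring
    omega


lemma choose_half_div_le (N K : ℕ) (hK : 1 ≤ K) (hN : K ≤ N) :
    ((N.choose (N / 2) : ℕ) : ℝ) / 2 ^ N ≤ 1 / Real.sqrt K := by
  have h := choose_half_sq N
  have hK0 : (0 : ℝ) < K := by exact_mod_cast hK
  have hs : 0 < Real.sqrt K := Real.sqrt_pos.2 hK0
  rw [div_le_div_iff₀ (by positivity) hs, one_mul]
  apply le_of_sq_le_sq _ (by positivity)
  rw [mul_pow, Real.sq_sqrt hK0.le]
  have h1 : ((N.choose (N / 2) : ℕ) : ℝ) ^ 2 * N ≤ 4 ^ N := by exact_mod_cast h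
  have h2 : (K : ℝ) ≤ N := by exact_mod_cast hN
  calc ((N.choose (N / 2) : ℕ) : ℝ) ^ 2 * K ≤ ((N.choose (N / 2) : ℕ) : ℝ) ^ 2 * N := by
        apply mul_le_mul_of_nonneg_left h2 (by positivity)
    _ ≤ 4 ^ N := h1
    _ = (2 ^ N) ^ 2 := by
      rw [← pow_mul, mul_comm N 2, pow_mul]
      norm_num

open Classical in
/-- number of nonzero terms -/
noncomputable def nnz {d : ℕ} (w y : Fin d → ℝ) : ℕ :=
  (Finset.univ.filter (fun i => w i * y i ≠ 0)).card

open Classical in
lemma count_le {d : ℕ} (w y : Fin d → ℝ) (K : ℕ) (hK : 1 ≤ K) (h : K ≤ nnz w y) :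
    ((Finset.univ.filter (fun ε : Fin d → Bool =>
      ∑ i, sgn (ε i) * (w i * y i) = 0)).card : ℝ) ≤ 2 ^ d / Real.sqrt K := by
  have h1 := littlewood_offord_gen (fun i => w i * y i)
  have h2 := choose_half_div_le (nnz w y) K hK h
  have hNd : nnz w y ≤ d := by
    unfold nnz
    refine (Finset.card_le_univ _).trans ?_
    simp
  have h3 : ((Finset.univ.filter (fun ε : Fin d → Bool =>
      ∑ i, sgn (ε i) * (w i * y i) = 0)).card : ℝ) ≤
      ((nnz w y).choose (nnz w y / 2) : ℕ) * 2 ^ (d - nnz w y) := by
    exact_mod_cast h1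
  refine h3.trans ?_
  have e : (2 : ℝ) ^ d = 2 ^ (nnz w y) * 2 ^ (d - nnz w y) := by
    rw [← pow_add]
    congr 1
    omega
  rw [e]
  rw [div_le_iff₀ (by positivity)] at h2
  calc (((nnz w y).choose (nnz w y / 2) : ℕ) : ℝ) * 2 ^ (d - nnz w y)
      ≤ (1 / Real.sqrt K * 2 ^ (nnz w y)) * 2 ^ (d - nnz w y) := by
        apply mul_le_mul_of_nonneg_right h2 (by positivity)
    _ = _ := by ring

lemma measurableSet_nnz {d : ℕ} (w : Fin d → ℝ) (K : ℕ) :
    MeasurableSet {y : Fin d → ℝ | nnz w y < K} := by
  classical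
  have : {y : Fin d → ℝ | nnz w y < K} =
      (fun y : Fin d → ℝ => ∑ i, (if w i * y i ≠ 0 then (1 : ℕ) else 0)) ⁻¹' (Set.Iio K) := by
    ext y
    simp only [Set.mem_ofPred_eq, Set.mem_preimage, Set.mem_Iio, nnz, Finset.card_filter]
  rw [this]
  apply MeasurableSet.preimage (by measurability)
  refine Finset.measurable_sum _ fun i _ => ?_
  apply Measurable.ite _ measurable_const measurable_const
  have : {a : Fin d → ℝ | w i * a i ≠ 0} = {a : Fin d → ℝ | w i * a i = 0}ᶜ := rfl
  rw [this]
  apply MeasurableSet.compl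
  apply measurableSet_eq_fun <;> fun_prop

section Row
variable {d : ℕ} (η : Measure ℝ) [IsProbabilityMeasure η]

theorem real_hyper_lo (hη : η.map (fun x => -x) = η) (w : Fin d → ℝ) (K : ℕ) (hK : 1 ≤ K) :
    (rowLaw η d).real {y | ∑ j, w j * y j = 0} ≤
      (rowLaw η d).real {y | nnz w y < K} + 1 / Real.sqrt K := by
  classical
  set ν := rowLaw η d with hν
  set U := {y : Fin d → ℝ | ∑ j, w j * y j = 0} with hU
  have hUm : MeasurableSet U := measurableSet_hyper Finset.univ w
  -- flips
  set F : (Fin d → Bool) → (Fin d → ℝ) → (Fin d → ℝ) :=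
    fun ε y j => if j ∈ Finset.univ.filter (fun j => ε j = false) then -y j else y j with hF
  have hmp : ∀ ε, MeasurePreserving (F ε) ν ν := fun ε => rowLaw_flip (d := d) η hη _
  have hpre : ∀ ε y, y ∈ F ε ⁻¹' U ↔ ∑ i, sgn (ε i) * (w i * y i) = 0 := by
    intro ε y
    simp only [hF, hU, Set.mem_preimage, Set.mem_ofPred_eq, Finset.mem_filter, Finset.mem_univ,
      true_and]
    have : ∀ j, w j * (if ε j = false then -y j else y j) = sgn (ε j) * (w j * y j) := by
      intro j
      cases ε j
      · simp only [if_true, sgn_false]; ring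
      · simp only [Bool.true_eq_false, if_false, sgn_true]; ring
    simp only [this]
  have hm : ∀ ε, ∫ y, (F ε ⁻¹' U).indicator (fun _ => (1 : ℝ)) y ∂ν = ν.real U := by
    intro ε
    rw [integral_indicator ((hmp ε).measurable hUm)]
    simp only [integral_const, smul_eq_mul, mul_one, MeasurableSet.univ, measureReal_restrict_apply,
      Set.univ_inter]
    unfold Measure.real
    rw [(hmp ε).measure_preimage hUm.nullMeasurableSet]
  have hsum : (2 : ℝ) ^ d * ν.real U =
      ∫ y, ∑ ε : Fin d → Bool, (F ε ⁻¹' U).indicator (fun _ => (1 : ℝ)) y ∂ν := by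
    rw [integral_finsetSum]
    · simp only [hm, Finset.sum_const, Finset.card_univ, Fintype.card_fun, Fintype.card_bool,
        Fintype.card_fin, nsmul_eq_mul]
      push_cast
      ring
    · intro ε _
      exact (integrable_const _).indicator ((hmp ε).measurable hUm)
  have hcount : ∀ y, ∑ ε : Fin d → Bool, (F ε ⁻¹' U).indicator (fun _ => (1 : ℝ)) y =
      ((Finset.univ.filter (fun ε : Fin d → Bool =>
      ∑ i, sgn (ε i) * (w i * y i) = 0)).card : ℝ) := by
    intro y
    rw [Finset.card_filter]
    push_cast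
    refine Finset.sum_congr rfl fun ε _ => ?_
    by_cases h : ∑ i, sgn (ε i) * (w i * y i) = 0
    · rw [Set.indicator_of_mem ((hpre ε y).2 h), if_pos h]
    · rw [Set.indicator_of_notMem (fun h' => h ((hpre ε y).1 h')), if_neg h]
  have hbound : ∀ y, ∑ ε : Fin d → Bool, (F ε ⁻¹' U).indicator (fun _ => (1 : ℝ)) y ≤
      {y | nnz w y < K}.indicator (fun _ => (2 : ℝ) ^ d) y + 2 ^ d / Real.sqrt K := by
    intro y
    rw [hcount]
    by_cases h : nnz w y < K
    · rw [Set.indicator_of_mem (show y ∈ _ from h)]
      have h1 : ((Finset.univ.filter (fun ε : Fin d → Bool =>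
        ∑ i, sgn (ε i) * (w i * y i) = 0)).card : ℝ) ≤ 2 ^ d := by
        have : (Finset.univ.filter (fun ε : Fin d → Bool =>
          ∑ i, sgn (ε i) * (w i * y i) = 0)).card ≤ 2 ^ d := by
          refine (Finset.card_le_univ _).trans ?_
          simp
        exact_mod_cast this
      have h2 : (0 : ℝ) ≤ 2 ^ d / Real.sqrt K := by positivity
      linarith
    · rw [Set.indicator_of_notMem (show y ∉ _ from h), zero_add]
      exact count_le w y K hK (not_lt.1 h)
  have hfin : (2 : ℝ) ^ d * ν.real U ≤
      ∫ y, ({y | nnz w y < K}.indicator (fun _ => (2 : ℝ) ^ d) y + 2 ^ d / Real.sqrt K) ∂ν := by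
    rw [hsum]
    apply integral_mono
    · exact integrable_finsetSum _ fun ε _ =>
        (integrable_const _).indicator ((hmp ε).measurable hUm)
    · exact ((integrable_const _).indicator (measurableSet_nnz w K)).add (integrable_const _)
    · exact hbound
  rw [integral_add ((integrable_const _).indicator (measurableSet_nnz w K)) (integrable_const _),
    integral_indicator (measurableSet_nnz w K)] at hfin
  simp only [integral_const, smul_eq_mul, MeasurableSet.univ, measureReal_restrict_apply,
      Set.univ_inter, probReal_univ, one_mul] at hfin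
  have h2 : (0 : ℝ) < 2 ^ d := by positivity
  have e : ν.real {y | nnz w y < K} * 2 ^ d + 2 ^ d / Real.sqrt K =
      2 ^ d * (ν.real {y | nnz w y < K} + 1 / Real.sqrt K) := by ring
  rw [e] at hfin
  exact le_of_mul_le_mul_left hfin h2

theorem real_nnz_lt (w : Fin d → ℝ) (S : Finset (Fin d)) (hS : ∀ j ∈ S, w j ≠ 0) (K r : ℕ)
    (hKr : K * r ≤ S.card) :
    (rowLaw η d).real {y | nnz w y < K} ≤ K * (1 - nz η) ^ r := by
  classical
  -- injection of blocks
  set e : Fin K × Fin r → Fin d := fun p =>
    S.orderEmbOfFin rfl (Fin.castLE hKr (finProdFinEquiv p)) with he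
  have heinj : Function.Injective e := by
    intro p q hpq
    have h1 := (S.orderEmbOfFin rfl).injective hpq
    have h2 := Fin.castLE_injective hKr h1
    exact finProdFinEquiv.injective h2
  have heS : ∀ p, e p ∈ S := fun p => S.orderEmbOfFin_mem rfl _
  have hsub : {y : Fin d → ℝ | nnz w y < K} ⊆
      ⋃ b ∈ (Finset.univ : Finset (Fin K)), {y | ∀ c : Fin r, y (e (b, c)) = 0} := by
    intro y hy
    by_contra hcon
    simp only [Set.mem_iUnion, Finset.mem_univ, Set.mem_ofPred_eq, exists_prop, true_and,
      not_exists, not_forall] at hcon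
    choose c hc using hcon
    have hinj : Function.Injective (fun b : Fin K => e (b, c b)) := by
      intro b b' h
      have := heinj h
      exact (Prod.ext_iff.1 this).1
    have : K ≤ nnz w y := by
      unfold nnz
      calc K = (Finset.univ.image (fun b : Fin K => e (b, c b))).card := by
            rw [Finset.card_image_of_injective _ hinj]; simp
        _ ≤ _ := by
          apply Finset.card_le_card
          intro i hi
          rw [Finset.mem_image] at hi
          obtain ⟨b, _, rfl⟩ := hi
          rw [Finset.mem_filter]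
          exact ⟨Finset.mem_univ _, mul_ne_zero (hS _ (heS _)) (hc b)⟩
    exact absurd hy (not_lt.2 this)
  have hblock : ∀ b : Fin K, (rowLaw η d).real {y | ∀ c : Fin r, y (e (b, c)) = 0} =
      (1 - nz η) ^ r := by
    intro b
    have : {y : Fin d → ℝ | ∀ c : Fin r, y (e (b, c)) = 0} =
        Set.univ.pi (fun i => if i ∈ Finset.univ.image (fun c : Fin r => e (b, c)) then
          ({0} : Set ℝ) else Set.univ) := by
      ext y
      simp only [Set.mem_ofPred_eq, Set.mem_pi, Set.mem_univ, forall_true_left]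
      constructor
      · intro h i
        by_cases hi : i ∈ Finset.univ.image (fun c : Fin r => e (b, c))
        · rw [if_pos hi]
          rw [Finset.mem_image] at hi
          obtain ⟨c, _, rfl⟩ := hi
          exact h c
        · rw [if_neg hi]
          trivial
      · intro h c
        have := h (e (b, c))
        rw [if_pos (Finset.mem_image_of_mem _ (Finset.mem_univ c))] at this
        exact this
    rw [this, real_pi_pi]
    have h1 : ∀ i : Fin d, η.real (if i ∈ Finset.univ.image (fun c : Fin r => e (b, c)) then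
          ({0} : Set ℝ) else Set.univ) =
        if i ∈ Finset.univ.image (fun c : Fin r => e (b, c)) then (1 - nz η) else 1 := by
      intro i
      by_cases hi : i ∈ Finset.univ.image (fun c : Fin r => e (b, c))
      · rw [if_pos hi, if_pos hi, real_zero]
      · rw [if_neg hi, if_neg hi]; simp
    simp only [h1]
    rw [Finset.prod_ite_mem, Finset.univ_inter, Finset.prod_const, Finset.card_image_of_injective]
    · simp
    · intro c c' h
      have := heinj h
      exact (Prod.ext_iff.1 this).2
  calc (rowLaw η d).real {y | nnz w y < K}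
      ≤ (rowLaw η d).real
        (⋃ b ∈ (Finset.univ : Finset (Fin K)), {y | ∀ c : Fin r, y (e (b, c)) = 0}) :=
        measureReal_mono hsub (measure_ne_top _ _)
    _ ≤ ∑ b : Fin K, (rowLaw η d).real {y | ∀ c : Fin r, y (e (b, c)) = 0} :=
        measureReal_biUnion_finset_le _ _
    _ = K * (1 - nz η) ^ r := by
        simp [hblock]

end Row

end Pool.Agent.Lib.MP_f7f952_pr
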