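import Mathlib
import Pool.Agent.Lib.MP_f7f952_pr.Whitney

/-!
# Reduction of the Wendel error to the singularity probability of a square matrix
-/

open MeasureTheory Module Submodule

namespace Pool.Agent.Lib.MP_f7f952_pr

/-- The family of functionals `y ↦ x i ⬝ y`. -/
noncomputable def fam {n d : ℕ} (x : Fin n → Fin d → ℝ) : Fin n → Dual ℝ (Fin d → ℝ) :=
  fun i => dotProductEquiv ℝ (Fin d) (x i)

lemma fam_apply {n d : ℕ} (x : Fin n → Fin d → ℝ) (i : Fin n) (y : Fin d → ℝ) :
    fam x i y = ∑ j, x i j * y j := rfl

lemma realizable_fam {n d : ℕ} (x : Fin n → Fin d → ℝ) (ε : Fin n → Bool) :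
    Realizable (fam x) ε ↔ ∃ y : Fin d → ℝ, ∀ i, 0 < sgn (ε i) * ∑ j, x i j * y j := Iff.rfl

lemma not_mem_convexHull_iff {n d : ℕ} (x : Fin n → Fin d → ℝ) :
    (0 : Fin d → ℝ) ∉ convexHull ℝ (Set.range x) ↔ Realizable (fam x) (fun _ => true) := by
  rw [realizable_fam]
  constructor
  · intro h
    have hcomp : IsCompact (convexHull ℝ (Set.range x)) :=
      (Set.finite_range x).isCompact_convexHull ℝ
    obtain ⟨f, u, hu, hf⟩ := geometric_hahn_banach_point_closed (convex_convexHull ℝ _)
      hcomp.isClosed h
    refine ⟨fun j => f (Pi.single j 1), fun i => ?_⟩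
    have h1 := hf (x i) (subset_convexHull ℝ _ ⟨i, rfl⟩)
    have h2 : f (x i) = ∑ j, x i j * f (Pi.single j 1) := by
      conv_lhs => rw [pi_eq_sum_univ' (x i)]
      rw [map_sum]
      refine Finset.sum_congr rfl fun j _ => ?_
      rw [map_smul, smul_eq_mul]
    rw [map_zero] at hu
    rw [sgn_true, one_mul, ← h2]
    exact hu.trans h1
  · rintro ⟨y, hy⟩ h0
    have hconv : Convex ℝ {v : Fin d → ℝ | 0 < ∑ j, v j * y j} := by
      intro v hv w hw a b ha hb hab
      simp only [Set.mem_ofPred_eq] at hv hw ⊢
      have e : ∑ j, (a • v + b • w) j * y j = a * ∑ j, v j * y j + b * ∑ j, w j * y j := by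
        rw [Finset.mul_sum, Finset.mul_sum, ← Finset.sum_add_distrib]
        refine Finset.sum_congr rfl fun j _ => ?_
        simp only [Pi.add_apply, Pi.smul_apply, smul_eq_mul]
        ring
      rw [e]
      rcases ha.eq_or_lt with h | h
      · have : b = 1 := by linarith
        subst h
        rw [this]
        simpa using hw
      · have h1 := mul_pos h hv
        have h2 := mul_nonneg hb hw.le
        linarith
    have hsub : convexHull ℝ (Set.range x) ⊆ {v : Fin d → ℝ | 0 < ∑ j, v j * y j} := by
      apply convexHull_min _ hconv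
      rintro _ ⟨i, rfl⟩
      have := hy i
      rw [sgn_true, one_mul] at this
      exact this
    have := hsub h0
    simp at this

lemma isOpen_realizable {n d : ℕ} (ε : Fin n → Bool) :
    IsOpen {x : Fin n → Fin d → ℝ | Realizable (fam x) ε} := by
  have : {x : Fin n → Fin d → ℝ | Realizable (fam x) ε} =
      ⋃ y : Fin d → ℝ, ⋂ i : Fin n, {x : Fin n → Fin d → ℝ | 0 < sgn (ε i) * ∑ j, x i j * y j} := by
    ext x
    simp only [Set.mem_ofPred_eq, realizable_fam, Set.mem_iUnion, Set.mem_iInter]
  rw [this]
  refine isOpen_iUnion fun y => isOpen_iInter_of_finite fun i => ?_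
  apply isOpen_lt continuous_const
  fun_prop

lemma measurePreserving_sgn {d : ℕ} (ν : Measure (Fin d → ℝ)) (hν : ν.map (fun v => -v) = ν)
    (b : Bool) : MeasurePreserving (fun v : Fin d → ℝ => sgn b • v) ν ν := by
  cases b
  · have : (fun v : Fin d → ℝ => sgn false • v) = fun v => -v := by
      ext v
      simp [sgn_false]
    rw [this]
    exact ⟨by fun_prop, hν⟩
  · have : (fun v : Fin d → ℝ => sgn true • v) = id := by
      ext v
      simp [sgn_true]
    rw [this]
    exact MeasurePreserving.id ν

lemma measure_realizable_eq {n d : ℕ} (ν : Measure (Fin d → ℝ)) [IsProbabilityMeasure ν]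
    (hν : ν.map (fun v => -v) = ν) (ε : Fin n → Bool) :
    (Measure.pi fun _ : Fin n => ν) {x | Realizable (fam x) ε} =
      (Measure.pi fun _ : Fin n => ν) {x | Realizable (fam x) (fun _ => true)} := by
  have hmp : MeasurePreserving (fun (x : Fin n → Fin d → ℝ) i => sgn (ε i) • x i)
      (Measure.pi fun _ : Fin n => ν) (Measure.pi fun _ : Fin n => ν) :=
    measurePreserving_pi _ _ (fun i => measurePreserving_sgn ν hν (ε i))
  have hset : {x : Fin n → Fin d → ℝ | Realizable (fam x) ε} =
      (fun (x : Fin n → Fin d → ℝ) i => sgn (ε i) • x i) ⁻¹'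
        {x | Realizable (fam x) (fun _ => true)} := by
    ext x
    simp only [Set.mem_ofPred_eq, Set.mem_preimage, realizable_fam, sgn_true, one_mul,
      Pi.smul_apply, smul_eq_mul, mul_assoc, Finset.mul_sum]
  rw [hset]
  exact hmp.measure_preimage (isOpen_realizable _).measurableSet.nullMeasurableSet

/-- `gen n d`: the signed sum in general position. -/
def gen (n d : ℕ) : ℤ := ∑ χ : Fin n → Bool, (-1 : ℤ) ^ (csize χ + min (csize χ) d)

lemma gen_zero (d : ℕ) : gen 0 d = 1 := by
  simp [gen, csize]

lemma gen_succ_zero (n : ℕ) : gen (n + 1) 0 = 0 := by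
  unfold gen
  rw [sum_cons]
  apply Finset.sum_eq_zero
  intro χ _
  rw [csize_cons, csize_cons]
  simp only [if_true, Bool.false_eq_true, if_false, zero_add, Nat.min_zero, add_zero]
  rw [pow_add]
  ring

lemma gen_succ_succ (n d : ℕ) : gen (n + 1) (d + 1) = gen n d + gen n (d + 1) := by
  unfold gen
  rw [sum_cons, ← Finset.sum_add_distrib]
  refine Finset.sum_congr rfl fun χ _ => ?_
  rw [csize_cons, csize_cons]
  simp only [if_true, Bool.false_eq_true, if_false, zero_add]
  congr 1
  rw [show 1 + csize χ + min (1 + csize χ) (d + 1) = csize χ + min (csize χ) d + 2 by omega,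
    pow_add]
  norm_num

lemma gen_eq (n d : ℕ) : gen (n + 1) d = 2 * ∑ k ∈ Finset.range d, (n.choose k : ℤ) := by
  induction n generalizing d with
  | zero =>
    cases d with
    | zero => rw [gen_succ_zero]; simp
    | succ d =>
      rw [gen_succ_succ, gen_zero, gen_zero, Finset.sum_range_succ']
      simp
  | succ n ih =>
    cases d with
    | zero => rw [gen_succ_zero]; simp
    | succ d =>
      rw [gen_succ_succ, ih, ih]
      have h : ∑ k ∈ Finset.range (d + 1), ((n + 1).choose k : ℤ) =
          ∑ k ∈ Finset.range d, (n.choose k : ℤ) + ∑ k ∈ Finset.range (d + 1), (n.choose k : ℤ) := by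
        have h1 : ∑ k ∈ Finset.range d, ((n + 1).choose (k + 1) : ℤ) =
            ∑ k ∈ Finset.range d, (n.choose k : ℤ) +
              ∑ k ∈ Finset.range d, (n.choose (k + 1) : ℤ) := by
          rw [← Finset.sum_add_distrib]
          refine Finset.sum_congr rfl fun k _ => ?_
          rw [Nat.choose_succ_succ]
          push_cast
          ring
        rw [Finset.sum_range_succ', Finset.sum_range_succ' (fun k : ℕ => (n.choose k : ℤ)), h1]
        simp only [Nat.choose_zero_right]
        ring
      rw [h]
      ring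

lemma map_comp_injective {ι κ E : Type} [Fintype ι] [Fintype κ] [MeasurableSpace E]
    (ν : Measure E) [IsProbabilityMeasure ν] (e : κ → ι) (he : Function.Injective e) :
    MeasurePreserving (fun (x : ι → E) (j : κ) => x (e j))
      (Measure.pi fun _ : ι => ν) (Measure.pi fun _ : κ => ν) := by
  classical
  refine ⟨by fun_prop, ?_⟩
  have h1 : ProbabilityTheory.iIndepFun (fun (i : ι) (x : ι → E) => x i)
      (Measure.pi fun _ : ι => ν) :=
    ProbabilityTheory.iIndepFun_pi (X := fun _ (x : E) => x) (fun i => aemeasurable_id)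
  have h2 := h1.precomp he
  have h3 := (ProbabilityTheory.iIndepFun_iff_map_fun_eq_pi_map
    (fun j => (measurable_pi_apply (e j)).aemeasurable)).1 h2
  rw [h3]
  congr 1
  ext1 j
  exact (measurePreserving_eval (fun _ : ι => ν) (e j)).map_eq

lemma csize_eq_card {n : ℕ} (χ : Fin n → Bool) :
    csize χ = (Finset.univ.filter (fun i => χ i = true)).card := by
  rw [Finset.card_filter]
  rfl

lemma exists_selector {n : ℕ} (χ : Fin n → Bool) (d : ℕ) :
    ∃ e : Fin (min (csize χ) d) → Fin n, Function.Injective e ∧ ∀ j, χ (e j) = true := by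
  classical
  obtain ⟨T, hT, hcard⟩ := Finset.exists_subset_card_eq
    (s := Finset.univ.filter (fun i => χ i = true)) (n := min (csize χ) d)
    (by rw [← csize_eq_card]; exact min_le_left _ _)
  refine ⟨T.orderEmbOfFin hcard, (T.orderEmbOfFin hcard).injective, fun j => ?_⟩
  have := hT (T.orderEmbOfFin_mem hcard j)
  simpa using this

/-- a chosen injective selection of `min (csize χ) d` selected indices -/
noncomputable def selector {n : ℕ} (χ : Fin n → Bool) (d : ℕ) :
    Fin (min (csize χ) d) → Fin n := (exists_selector χ d).choose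

lemma selector_inj {n : ℕ} (χ : Fin n → Bool) (d : ℕ) : Function.Injective (selector χ d) :=
  (exists_selector χ d).choose_spec.1

lemma selector_mem {n : ℕ} (χ : Fin n → Bool) (d : ℕ) (j) : χ (selector χ d j) = true :=
  (exists_selector χ d).choose_spec.2 j

lemma subrank_eq_of_li {n d : ℕ} (x : Fin n → Fin d → ℝ) (χ : Fin n → Bool)
    (h : LinearIndependent ℝ (fun j => x (selector χ d j))) :
    subrank (fam x) χ = min (csize χ) d := by
  classical
  have hfin : FiniteDimensional ℝ (span ℝ (fam x '' {i | χ i = true})) :=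
    FiniteDimensional.span_of_finite ℝ (Set.toFinite _)
  apply le_antisymm
  · apply le_min
    · unfold subrank
      have e : (fam x '' {i | χ i = true}) =
          ((Finset.univ.filter (fun i => χ i = true)).image (fam x) : Finset _) := by
        ext φ
        simp
      rw [e]
      refine (finrank_span_finset_le_card _).trans ?_
      rw [csize_eq_card]
      exact Finset.card_image_le
    · unfold subrank
      refine (Submodule.finrank_le _).trans ?_
      rw [Subspace.dual_finrank_eq]
      simp
  · have h1 : LinearIndependent ℝ (fun j => fam x (selector χ d j)) :=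
      h.map' (dotProductEquiv ℝ (Fin d)).toLinearMap (LinearEquiv.ker _)
    have h2 := finrank_span_eq_card h1
    rw [Fintype.card_fin] at h2
    rw [← h2]
    apply Submodule.finrank_mono
    apply Submodule.span_mono
    rintro _ ⟨j, rfl⟩
    exact ⟨selector χ d j, selector_mem χ d j, rfl⟩

/-- probability that `m` independent vectors with law `ν` are linearly dependent -/
noncomputable def depProb {d : ℕ} (ν : Measure (Fin d → ℝ)) (m : ℕ) : ℝ :=
  (Measure.pi fun _ : Fin m => ν).real {y | ¬ LinearIndependent ℝ y}

lemma measurableSet_dep {m d : ℕ} :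
    MeasurableSet {y : Fin m → Fin d → ℝ | ¬ LinearIndependent ℝ y} := by
  have : {y : Fin m → Fin d → ℝ | ¬ LinearIndependent ℝ y} =
    {y : Fin m → Fin d → ℝ | LinearIndependent ℝ y}ᶜ := rfl
  rw [this]
  exact isOpen_setOfPred_linearIndependent.measurableSet.compl

lemma measure_dep_comp {n m d : ℕ} (ν : Measure (Fin d → ℝ)) [IsProbabilityMeasure ν]
    (e : Fin m → Fin n) (he : Function.Injective e) :
    (Measure.pi fun _ : Fin n => ν).real {x | ¬ LinearIndependent ℝ (fun j => x (e j))} =
      depProb ν m := by
  unfold depProb Measure.real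
  rw [← (map_comp_injective ν e he).measure_preimage measurableSet_dep.nullMeasurableSet]
  rfl

lemma depProb_mono {d : ℕ} (ν : Measure (Fin d → ℝ)) [IsProbabilityMeasure ν] {m m' : ℕ}
    (h : m ≤ m') : depProb ν m ≤ depProb ν m' := by
  rw [← measure_dep_comp ν (Fin.castLE h) (Fin.castLE_injective h)]
  unfold depProb
  apply measureReal_mono
  · intro x hx hli
    exact hx (hli.comp _ (Fin.castLE_injective h))
  · exact measure_ne_top _ _


lemma abs_neg_one_pow_sub_le (a b : ℕ) : |((-1 : ℝ) ^ a - (-1) ^ b)| ≤ 2 := by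
  rcases neg_one_pow_eq_or ℝ a with h | h <;> rcases neg_one_pow_eq_or ℝ b with h' | h' <;>
    rw [h, h'] <;> norm_num

open Classical in
lemma pointwise_bound {n d : ℕ} (x : Fin n → Fin d → ℝ) :
    |((∑ ε : Fin n → Bool, ind (Realizable (fam x) ε) : ℤ) : ℝ) - (gen n d : ℝ)| ≤
      ∑ χ : Fin n → Bool, Set.indicator
        {x : Fin n → Fin d → ℝ | ¬ LinearIndependent ℝ (fun j => x (selector χ d j))}
        (fun _ => (2 : ℝ)) x := by
  rw [whitney, gen]
  push_cast
  rw [← Finset.sum_sub_distrib]
  refine (Finset.abs_sum_le_sum_abs _ _).trans (Finset.sum_le_sum fun χ _ => ?_)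
  by_cases h : LinearIndependent ℝ (fun j => x (selector χ d j))
  · rw [subrank_eq_of_li x χ h, sub_self, abs_zero]
    apply Set.indicator_nonneg
    intro _ _; norm_num
  · rw [Set.indicator_of_mem (show x ∈ _ from h)]
    exact abs_neg_one_pow_sub_le _ _

theorem reduction {n d : ℕ} (ν : Measure (Fin d → ℝ)) [IsProbabilityMeasure ν]
    (hν : ν.map (fun v => -v) = ν) (hn : 1 ≤ n) :
    |(Measure.pi fun _ : Fin n => ν).real {x | (0 : Fin d → ℝ) ∉ convexHull ℝ (Set.range x)} -
      2 * (∑ k ∈ Finset.range d, ((n - 1).choose k : ℝ)) / 2 ^ n| ≤ 2 * depProb ν d := by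
  classical
  set P := Measure.pi fun _ : Fin n => ν with hP
  have hset : {x : Fin n → Fin d → ℝ | (0 : Fin d → ℝ) ∉ convexHull ℝ (Set.range x)} =
      {x | Realizable (fam x) (fun _ => true)} := by
    ext x
    exact not_mem_convexHull_iff x
  rw [hset]
  set Q := P.real {x | Realizable (fam x) (fun _ => true)} with hQ
  have hgen : (gen n d : ℝ) = 2 * ∑ k ∈ Finset.range d, ((n - 1).choose k : ℝ) := by
    obtain ⟨m, rfl⟩ : ∃ m, n = m + 1 := ⟨n - 1, by omega⟩
    rw [gen_eq]
    push_cast
    rfl
  rw [← hgen]
  -- the integral of the count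
  have hint : ∀ ε : Fin n → Bool, Integrable
      (fun x : Fin n → Fin d → ℝ => ((ind (Realizable (fam x) ε) : ℤ) : ℝ)) P := by
    intro ε
    have : (fun x : Fin n → Fin d → ℝ => ((ind (Realizable (fam x) ε) : ℤ) : ℝ)) =
        Set.indicator {x | Realizable (fam x) ε} (fun _ => (1 : ℝ)) := by
      ext x
      unfold ind
      by_cases h : Realizable (fam x) ε
      · rw [if_pos h, Set.indicator_of_mem (show x ∈ _ from h)]; norm_num
      · rw [if_neg h, Set.indicator_of_notMem (show x ∉ _ from h)]; norm_num
    rw [this]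
    exact (integrable_const _).indicator (isOpen_realizable ε).measurableSet
  have hval : ∀ ε : Fin n → Bool,
      ∫ x, ((ind (Realizable (fam x) ε) : ℤ) : ℝ) ∂P = Q := by
    intro ε
    have : (fun x : Fin n → Fin d → ℝ => ((ind (Realizable (fam x) ε) : ℤ) : ℝ)) =
        Set.indicator {x | Realizable (fam x) ε} (fun _ => (1 : ℝ)) := by
      ext x
      unfold ind
      by_cases h : Realizable (fam x) ε
      · rw [if_pos h, Set.indicator_of_mem (show x ∈ _ from h)]; norm_num
      · rw [if_neg h, Set.indicator_of_notMem (show x ∉ _ from h)]; norm_num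
    rw [this, integral_indicator (isOpen_realizable ε).measurableSet]
    simp only [integral_const, smul_eq_mul, mul_one, MeasurableSet.univ, measureReal_restrict_apply,
      Set.univ_inter]
    rw [hQ]
    unfold Measure.real
    rw [hP, measure_realizable_eq ν hν ε]
  have hI : ∫ x, (((∑ ε : Fin n → Bool, ind (Realizable (fam x) ε) : ℤ) : ℝ) - (gen n d : ℝ)) ∂P =
      2 ^ n * Q - gen n d := by
    have h1 : Integrable (fun x => ((∑ ε : Fin n → Bool, ind (Realizable (fam x) ε) : ℤ) : ℝ)) P := by
      push_cast
      exact integrable_finsetSum _ fun ε _ => hint ε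
    rw [integral_sub h1 (integrable_const _)]
    push_cast
    rw [integral_finsetSum _ fun ε _ => hint ε]
    simp only [hval, integral_const, smul_eq_mul, probReal_univ, one_mul]
    simp
  have hB : ‖∫ x, (((∑ ε : Fin n → Bool, ind (Realizable (fam x) ε) : ℤ) : ℝ)
      - (gen n d : ℝ)) ∂P‖ ≤ ∫ x, (∑ χ : Fin n → Bool, Set.indicator
        {x : Fin n → Fin d → ℝ | ¬ LinearIndependent ℝ (fun j => x (selector χ d j))}
        (fun _ => (2 : ℝ)) x) ∂P := by
    apply norm_integral_le_of_norm_le
    · refine integrable_finsetSum _ fun χ _ => (integrable_const _).indicator ?_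
      have hc : Measurable (fun (x : Fin n → Fin d → ℝ) (j : Fin (min (csize χ) d)) =>
        x (selector χ d j)) := by fun_prop
      exact hc measurableSet_dep
    · filter_upwards with x
      exact pointwise_bound x
  have hS : ∫ x, (∑ χ : Fin n → Bool, Set.indicator
        {x : Fin n → Fin d → ℝ | ¬ LinearIndependent ℝ (fun j => x (selector χ d j))}
        (fun _ => (2 : ℝ)) x) ∂P ≤ 2 ^ n * (2 * depProb ν d) := by
    rw [integral_finsetSum]
    · have : ∀ χ : Fin n → Bool, ∫ x, Set.indicator
          {x : Fin n → Fin d → ℝ | ¬ LinearIndependent ℝ (fun j => x (selector χ d j))}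
          (fun _ => (2 : ℝ)) x ∂P ≤ 2 * depProb ν d := by
        intro χ
        have hc : Measurable (fun (x : Fin n → Fin d → ℝ) (j : Fin (min (csize χ) d)) =>
          x (selector χ d j)) := by fun_prop
        have hm : MeasurableSet {x : Fin n → Fin d → ℝ |
            ¬ LinearIndependent ℝ (fun j => x (selector χ d j))} := hc measurableSet_dep
        rw [integral_indicator hm]
        simp only [integral_const, smul_eq_mul, MeasurableSet.univ, measureReal_restrict_apply,
          Set.univ_inter]
        rw [hP, measure_dep_comp ν _ (selector_inj χ d)]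
        have := depProb_mono ν (min_le_right (csize χ) d)
        linarith
      calc _ ≤ ∑ χ : Fin n → Bool, 2 * depProb ν d := Finset.sum_le_sum fun χ _ => this χ
        _ = _ := by simp
    · intro χ _
      refine (integrable_const _).indicator ?_
      have hc : Measurable (fun (x : Fin n → Fin d → ℝ) (j : Fin (min (csize χ) d)) =>
        x (selector χ d j)) := by fun_prop
      exact hc measurableSet_dep
  rw [hI] at hB
  have hfin := hB.trans hS
  rw [Real.norm_eq_abs] at hfin
  have h2 : (0 : ℝ) < 2 ^ n := by positivity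
  have e : Q - (gen n d : ℝ) / 2 ^ n = (2 ^ n * Q - gen n d) / 2 ^ n := by
    field_simp
  rw [e, abs_div, abs_of_pos h2, div_le_iff₀ h2]
  linarith

end Pool.Agent.Lib.MP_f7f952_pr
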