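import Mathlib
import Pool.Agent.Lib.MP_f7f952_pr.Atoms
import Pool.Agent.Lib.MP_f7f952_pr.LO
import Pool.Agent.Lib.MP_f7f952_pr.Reduction

/-!
# The singularity probability of a square matrix with i.i.d. symmetric entries
-/

open MeasureTheory
open Module

namespace Pool.Agent.Lib.MP_f7f952_pr

lemma pi_prod_curry {m d : ℕ} (η : Measure ℝ) [IsProbabilityMeasure η] :
    MeasurePreserving (fun (x : Fin m × Fin d → ℝ) (i : Fin m) (j : Fin d) => x (i, j))
      (Measure.pi fun _ : Fin m × Fin d => η) (Measure.pi fun _ : Fin m => rowLaw η d) := by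
  have h := Measure.infinitePi_map_curry (ι := Fin m) (κ := Fin d) (fun _ _ => η)
  simp only [Measure.infinitePi_eq_pi] at h
  exact ⟨by fun_prop, h⟩

lemma pi_prod_uncurry {m d : ℕ} (η : Measure ℝ) [IsProbabilityMeasure η] :
    MeasurePreserving (fun (x : Fin m → Fin d → ℝ) (p : Fin m × Fin d) => x p.1 p.2)
      (Measure.pi fun _ : Fin m => rowLaw η d) (Measure.pi fun _ : Fin m × Fin d => η) := by
  have h := Measure.infinitePi_map_curry_symm (ι := Fin m) (κ := Fin d) (fun _ _ => η)
  simp only [Measure.infinitePi_eq_pi] at h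
  exact ⟨by fun_prop, h⟩

lemma transpose_mp {m d : ℕ} (η : Measure ℝ) [IsProbabilityMeasure η] :
    MeasurePreserving (fun (x : Fin m → Fin d → ℝ) (j : Fin d) (i : Fin m) => x i j)
      (Measure.pi fun _ : Fin m => rowLaw η d) (Measure.pi fun _ : Fin d => rowLaw η m) := by
  have h1 := pi_prod_uncurry (m := m) (d := d) η
  have h2 : MeasurePreserving (fun (x : Fin m × Fin d → ℝ) (p : Fin d × Fin m) => x (p.2, p.1))
      (Measure.pi fun _ : Fin m × Fin d => η) (Measure.pi fun _ : Fin d × Fin m => η) := by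
    apply map_comp_injective η (fun p : Fin d × Fin m => (p.2, p.1))
    intro p q h
    rw [Prod.ext_iff] at h ⊢
    exact ⟨h.2, h.1⟩
  have h3 := pi_prod_curry (m := d) (d := m) η
  exact h3.comp (h2.comp h1)

/-- columns of a matrix -/
def cols {m d : ℕ} (x : Fin m → Fin d → ℝ) (j : Fin d) : Fin m → ℝ := fun i => x i j

/-- matrices having a nonzero kernel vector with at most `k` nonzero entries -/
def SmallCol (m d k : ℕ) : Set (Fin m → Fin d → ℝ) :=
  {x | ∃ v : Fin d → ℝ, v ≠ 0 ∧ (Finset.univ.filter (fun j => v j ≠ 0)).card ≤ k ∧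
    ∀ i, ∑ j, v j * x i j = 0}

/-- the columns in `S` form a minimal dependent set -/
def MinDep {m d : ℕ} (S : Finset (Fin d)) : Set (Fin m → Fin d → ℝ) :=
  {x | ¬ LinearIndepOn ℝ (cols x) (S : Set (Fin d)) ∧
    ∀ j ∈ S, LinearIndepOn ℝ (cols x) (S.erase j : Set (Fin d))}

lemma isOpen_cols_indep {m d : ℕ} (T : Finset (Fin d)) :
    IsOpen {x : Fin m → Fin d → ℝ | LinearIndepOn ℝ (cols x) (T : Set (Fin d))} := by
  have hc : Continuous (fun (x : Fin m → Fin d → ℝ) (j : (T : Set (Fin d))) => cols x j) := by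
    unfold cols
    fun_prop
  exact isOpen_setOfPred_linearIndependent.preimage hc

lemma measurableSet_minDep {m d : ℕ} (S : Finset (Fin d)) :
    MeasurableSet (MinDep (m := m) S) := by
  have : MinDep (m := m) S =
      {x : Fin m → Fin d → ℝ | LinearIndepOn ℝ (cols x) (S : Set (Fin d))}ᶜ ∩
      ⋂ j ∈ S, {x : Fin m → Fin d → ℝ | LinearIndepOn ℝ (cols x) ((S.erase j : Finset (Fin d)) :
        Set (Fin d))} := by
    ext x
    simp only [MinDep, Set.mem_ofPred_eq, Set.mem_inter_iff, Set.mem_compl_iff, Set.mem_iInter]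
  rw [this]
  apply MeasurableSet.inter (isOpen_cols_indep S).measurableSet.compl
  exact Finset.measurableSet_biInter _ fun j _ => (isOpen_cols_indep _).measurableSet

lemma minDep_vector {m d : ℕ} {S : Finset (Fin d)} {x : Fin m → Fin d → ℝ}
    (hx : x ∈ MinDep S) : ∃ v : Fin d → ℝ, (∀ j, v j ≠ 0 ↔ j ∈ S) ∧
      ∀ i, ∑ j ∈ S, v j * x i j = 0 := by
  classical
  obtain ⟨h1, h2⟩ := hx
  rw [linearIndepOn_finset_iff] at h1
  push Not at h1
  obtain ⟨g, hg, i0, hi0, hgi0⟩ := h1
  have hne : ∀ j ∈ S, g j ≠ 0 := by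
    intro j hj hgj
    have h3 := h2 j hj
    have h4 := linearIndepOn_finset_iff.1 (show LinearIndepOn ℝ (cols x)
      ((S.erase j : Finset (Fin d)) : Set (Fin d)) from h3) g
    have h5 : ∑ i ∈ S.erase j, g i • cols x i = 0 := by
      rw [← hg, ← Finset.add_sum_erase S _ hj, hgj, zero_smul, zero_add]
    have h6 : i0 ∈ S.erase j := by
      rw [Finset.mem_erase]
      refine ⟨?_, hi0⟩
      rintro rfl
      exact hgi0 hgj
    exact hgi0 (h4 h5 i0 h6)
  refine ⟨fun j => if j ∈ S then g j else 0, fun j => ?_, fun i => ?_⟩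
  · by_cases hj : j ∈ S
    · simp [hj, hne j hj]
    · simp [hj]
  · have := congrFun hg i
    simp only [Finset.sum_apply, Pi.smul_apply, smul_eq_mul, Pi.zero_apply, cols] at this
    refine Eq.trans (Finset.sum_congr rfl fun j hj => ?_) this
    simp only [if_pos hj]

lemma minDep_unique {m d : ℕ} {S : Finset (Fin d)} {x : Fin m → Fin d → ℝ}
    (hx : x ∈ MinDep S) (hS : S.Nonempty) (v v' : Fin d → ℝ)
    (hv : ∀ j ∈ S, v j ≠ 0) (hvx : ∀ i, ∑ j ∈ S, v j * x i j = 0)
    (hvx' : ∀ i, ∑ j ∈ S, v' j * x i j = 0) : ∃ c : ℝ, ∀ j ∈ S, v' j = c * v j := by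
  classical
  obtain ⟨j0, hj0⟩ := hS
  set c := v' j0 / v j0 with hc
  refine ⟨c, ?_⟩
  have h3 := hx.2 j0 hj0
  have h4 := linearIndepOn_finset_iff.1 (show LinearIndepOn ℝ (cols x)
      ((S.erase j0 : Finset (Fin d)) : Set (Fin d)) from h3) (fun j => v' j - c * v j)
  have h5 : ∑ i ∈ S.erase j0, (v' i - c * v i) • cols x i = 0 := by
    have h6 : ∑ i ∈ S, (v' i - c * v i) • cols x i = 0 := by
      ext i
      simp only [Finset.sum_apply, Pi.smul_apply, smul_eq_mul, Pi.zero_apply, cols]
      have e : ∑ j ∈ S, (v' j - c * v j) * x i j =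
          ∑ j ∈ S, v' j * x i j - c * ∑ j ∈ S, v j * x i j := by
        rw [Finset.mul_sum, ← Finset.sum_sub_distrib]
        refine Finset.sum_congr rfl fun j _ => by ring
      rw [e, hvx, hvx']
      ring
    rw [← Finset.add_sum_erase S _ hj0] at h6
    have h7 : v' j0 - c * v j0 = 0 := by
      rw [hc]
      field_simp [hv j0 hj0]
      ring
    rw [h7, zero_smul, zero_add] at h6
    exact h6
  intro j hj
  by_cases hjj : j = j0
  · rw [hjj, hc]
    field_simp [hv j0 hj0]
  · have := h4 h5 j (Finset.mem_erase.2 ⟨hjj, hj⟩)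
    linarith

lemma exists_minDep_of_smallCol {m d k : ℕ} {x : Fin m → Fin d → ℝ} (hx : x ∈ SmallCol m d k) :
    ∃ S : Finset (Fin d), 1 ≤ S.card ∧ S.card ≤ k ∧ x ∈ MinDep S := by
  classical
  obtain ⟨v, hv, hk, hvx⟩ := hx
  set S0 := Finset.univ.filter (fun j => v j ≠ 0) with hS0
  have hdep : ¬ LinearIndepOn ℝ (cols x) (S0 : Set (Fin d)) := by
    intro hli
    rw [linearIndepOn_finset_iff] at hli
    have h1 : ∑ i ∈ S0, v i • cols x i = 0 := by
      ext i
      simp only [Finset.sum_apply, Pi.smul_apply, smul_eq_mul, Pi.zero_apply, cols]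
      rw [← hvx i]
      apply Finset.sum_subset (Finset.subset_univ _)
      intro j _ hj
      have : v j = 0 := by
        by_contra h
        exact hj (by simp [hS0, h])
      rw [this, zero_mul]
    have h2 := hli v h1
    apply hv
    ext j
    by_contra h
    exact h (h2 j (by simpa [hS0] using h))
  -- minimal dependent subset
  obtain ⟨S, hSsub, hSmin⟩ := exists_minimal_le_of_wellFoundedLT
    (fun S : Finset (Fin d) => ¬ LinearIndepOn ℝ (cols x) (S : Set (Fin d))) S0 hdep
  refine ⟨S, ?_, (Finset.card_le_card hSsub).trans hk, hSmin.1, ?_⟩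
  · rw [Nat.one_le_iff_ne_zero, Finset.card_ne_zero]
    by_contra hne
    rw [Finset.not_nonempty_iff_eq_empty] at hne
    apply hSmin.1
    rw [hne]
    simp
  · intro j hj
    by_contra hcon
    have h1 : ¬ LinearIndepOn ℝ (cols x) ((S.erase j : Finset (Fin d)) : Set (Fin d)) := hcon
    have h2 := hSmin.2 h1 (Finset.erase_subset j S)
    exact (Finset.notMem_erase j S) (h2 hj)

/-- the rows restricted to the coordinates in `S` -/
def rowsOn {m d : ℕ} (S : Finset (Fin d)) (x : Fin m → Fin d → ℝ) : Fin m → (S → ℝ) :=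
  fun i j => x i j

lemma exists_rows_of_minDep {m d : ℕ} {S : Finset (Fin d)} {x : Fin m → Fin d → ℝ}
    (hx : x ∈ MinDep S) (hS : S.Nonempty) :
    ∃ J : Finset (Fin m), J.card = S.card - 1 ∧
      LinearIndepOn ℝ (rowsOn S x) (J : Set (Fin m)) := by
  classical
  obtain ⟨v, hv, hvx⟩ := minDep_vector hx
  set A : Matrix (Fin m) S ℝ := Matrix.of (rowsOn S x) with hA
  have hker : finrank ℝ (LinearMap.ker A.mulVecLin) = 1 := by
    have hv0 : (fun j : S => v j) ∈ LinearMap.ker A.mulVecLin := by
      rw [LinearMap.mem_ker]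
      ext i
      simp only [Matrix.mulVecLin_apply, Matrix.mulVec, dotProduct, hA, Matrix.of_apply, rowsOn,
        Pi.zero_apply]
      rw [← hvx i, ← Finset.sum_coe_sort S]
      refine Finset.sum_congr rfl fun j _ => by ring
    apply finrank_eq_one (⟨_, hv0⟩ : LinearMap.ker A.mulVecLin)
    · intro h
      obtain ⟨j, hj⟩ := hS
      have h1 := congrArg Subtype.val h
      have h2 := congrFun h1 ⟨j, hj⟩
      exact (hv j).2 hj h2
    · rintro ⟨w, hw⟩
      rw [LinearMap.mem_ker] at hw
      have hw' : ∀ i, ∑ j ∈ S, (if h : j ∈ S then w ⟨j, h⟩ else 0) * x i j = 0 := by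
        intro i
        have h1 := congrFun hw i
        simp only [Matrix.mulVecLin_apply, Matrix.mulVec, dotProduct, hA, Matrix.of_apply, rowsOn,
          Pi.zero_apply] at h1
        rw [← Finset.sum_coe_sort S]
        refine Eq.trans (Finset.sum_congr rfl fun j _ => ?_) h1
        simp only [j.2, dif_pos]
        ring
      obtain ⟨c, hc⟩ := minDep_unique hx hS v _ (fun j hj => (hv j).2 hj) hvx hw'
      refine ⟨c, ?_⟩
      apply Subtype.ext
      ext j
      have := hc j j.2
      simp only [j.2, dif_pos] at this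
      simp only [SetLike.val_smul, Pi.smul_apply, smul_eq_mul]
      exact this.symm
  have hrank := LinearMap.finrank_range_add_finrank_ker A.mulVecLin
  rw [hker] at hrank
  have hcard : finrank ℝ (S → ℝ) = S.card := by simp
  rw [hcard] at hrank
  have hr : A.rank = S.card - 1 := by
    unfold Matrix.rank
    omega
  rw [Matrix.rank_eq_finrank_span_row] at hr
  obtain ⟨b, _, _, hb1, hb2⟩ := exists_linearIndepOn_extension
    (K := ℝ) (v := rowsOn S x) (s := ∅) (t := Set.univ) (linearIndepOn_empty _ _) (Set.empty_subset _)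
  have hspan : Submodule.span ℝ (rowsOn S x '' b) = Submodule.span ℝ (Set.range A.row) := by
    apply le_antisymm
    · apply Submodule.span_mono
      rintro _ ⟨i, _, rfl⟩
      exact ⟨i, rfl⟩
    · rw [Submodule.span_le]
      rintro _ ⟨i, rfl⟩
      exact hb1 ⟨i, Set.mem_univ _, rfl⟩
  refine ⟨b.toFinset, ?_, by simpa using hb2⟩
  have h1 := finrank_span_eq_card hb2
  rw [← Set.toFinset_card] at h1
  rw [← h1, ← hr, ← hspan, Set.image_eq_range]

section Prob

variable (η : Measure ℝ) [IsProbabilityMeasure η]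

lemma real_pi_univ {m d : ℕ} (ν : Measure (Fin d → ℝ)) [IsProbabilityMeasure ν]
    (s : Fin m → Set (Fin d → ℝ)) :
    (Measure.pi fun _ : Fin m => ν).real (Set.univ.pi s) = ∏ i, ν.real (s i) := by
  unfold Measure.real
  rw [Measure.pi_pi, ENNReal.toReal_prod]

/-- small sets: no row may have exactly one nonzero entry in `S` -/
lemma real_minDep_le_small {m d : ℕ} (S : Finset (Fin d)) :
    (Measure.pi fun _ : Fin m => rowLaw η d).real (MinDep S) ≤
      (1 - S.card * (nz η * (1 - nz η) ^ (S.card - 1))) ^ m := by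
  have hsub : MinDep (m := m) S ⊆ Set.univ.pi (fun _ : Fin m => (OneIn S)ᶜ) := by
    intro x hx i _ hi
    obtain ⟨v, hv, hvx⟩ := minDep_vector hx
    exact sum_ne_zero_of_oneIn (fun j hj => (hv j).2 hj) hi (hvx i)
  refine (measureReal_mono hsub (measure_ne_top _ _)).trans ?_
  rw [real_pi_univ]
  simp only [probReal_compl_eq_one_sub (measurableSet_oneIn S), real_oneIn, Finset.prod_const,
    Finset.card_univ, Fintype.card_fin, le_refl]

/-- the rows in `J` are independent on `S` -/
def RowsIndep {m d : ℕ} (S : Finset (Fin d)) (J : Finset (Fin m)) : Set (Fin m → Fin d → ℝ) :=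
  {x | LinearIndepOn ℝ (rowsOn S x) (J : Set (Fin m))}

lemma isOpen_rowsIndep {m d : ℕ} (S : Finset (Fin d)) (J : Finset (Fin m)) :
    IsOpen (RowsIndep S J) := by
  have hc : Continuous (fun (x : Fin m → Fin d → ℝ) (j : (J : Set (Fin m))) => rowsOn S x j) := by
    unfold rowsOn
    fun_prop
  exact isOpen_setOfPred_linearIndependent.preimage hc

/-- two kernel vectors of `|S| - 1` independent rows are proportional -/
lemma proportional_of_rows {m d : ℕ} {S : Finset (Fin d)} {J : Finset (Fin m)}
    (x : Fin m → Fin d → ℝ) (hx : x ∈ RowsIndep S J) (hJ : J.card = S.card - 1)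
    (hS : S.Nonempty) (v v' : Fin d → ℝ) (hv : ∀ j ∈ S, v j ≠ 0)
    (h : ∀ i ∈ J, ∑ j ∈ S, v j * x i j = 0) (h' : ∀ i ∈ J, ∑ j ∈ S, v' j * x i j = 0) :
    ∃ c : ℝ, ∀ j ∈ S, v' j = c * v j := by
  classical
  set A : Matrix J S ℝ := Matrix.of (fun i j => x i j) with hA
  have hli : LinearIndependent ℝ A.row := hx
  have hrk := hli.rank_matrix
  rw [Fintype.card_coe] at hrk
  have hrank := LinearMap.finrank_range_add_finrank_ker A.mulVecLin
  have hcard : finrank ℝ (S → ℝ) = S.card := by simp
  rw [hcard] at hrank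
  have hr : finrank ℝ (LinearMap.range A.mulVecLin) = J.card := hrk
  have hpos : 0 < S.card := Finset.card_pos.2 hS
  have hk : finrank ℝ (LinearMap.ker A.mulVecLin) = 1 := by omega
  have mem : ∀ w : Fin d → ℝ, (∀ i ∈ J, ∑ j ∈ S, w j * x i j = 0) →
      (fun j : S => w j) ∈ LinearMap.ker A.mulVecLin := by
    intro w hw
    rw [LinearMap.mem_ker]
    ext i
    simp only [Matrix.mulVecLin_apply, Matrix.mulVec, dotProduct, hA, Matrix.of_apply,
      Pi.zero_apply]
    rw [← hw i i.2, ← Finset.sum_coe_sort S]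
    refine Finset.sum_congr rfl fun j _ => by ring
  have hv0 : (⟨_, mem v h⟩ : LinearMap.ker A.mulVecLin) ≠ 0 := by
    intro h0
    obtain ⟨j, hj⟩ := hS
    have h1 := congrArg Subtype.val h0
    have h2 := congrFun h1 ⟨j, hj⟩
    exact hv j hj h2
  obtain ⟨c, hc⟩ := (finrank_eq_one_iff_of_nonzero' _ hv0).1 hk ⟨_, mem v' h'⟩
  refine ⟨c, fun j hj => ?_⟩
  have h1 := congrArg Subtype.val hc
  have h2 := congrFun h1 ⟨j, hj⟩
  simp only [SetLike.val_smul, Pi.smul_apply, smul_eq_mul] at h2
  exact h2.symm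

/-- large sets: choose `|S| - 1` independent rows, the other rows are orthogonal to the
kernel vector that they determine. -/
lemma real_minDep_inter_le {m d : ℕ} (S : Finset (Fin d)) (hS : S.Nonempty)
    (J : Finset (Fin m)) (hJ : J.card = S.card - 1) (ρ : ℝ) (hρ0 : 0 ≤ ρ)
    (hρ : ∀ v : Fin d → ℝ, (∀ j, v j ≠ 0 ↔ j ∈ S) →
      (rowLaw η d).real {y | ∑ j, v j * y j = 0} ≤ ρ) :
    (Measure.pi fun _ : Fin m => rowLaw η d).real (MinDep S ∩ RowsIndep S J) ≤
      ρ ^ (m - (S.card - 1)) := by
  classical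
  set G := MinDep (m := m) S ∩ RowsIndep S J with hG
  have hGm : MeasurableSet G := (measurableSet_minDep S).inter (isOpen_rowsIndep S J).measurableSet
  set e := MeasurableEquiv.piEquivPiSubtypeProd (fun _ : Fin m => (Fin d → ℝ)) (fun i => i ∈ J)
    with he
  have hmp := measurePreserving_piEquivPiSubtypeProd (fun _ : Fin m => rowLaw η d) (fun i => i ∈ J)
  have hmps := hmp.symm
  set P1 := Measure.pi (fun _ : {i : Fin m // i ∈ J} => rowLaw η d) with hP1
  set P2 := Measure.pi (fun _ : {i : Fin m // i ∉ J} => rowLaw η d) with hP2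
  have key : ∀ z : ({i : Fin m // i ∈ J} → Fin d → ℝ),
      P2 (Prod.mk z ⁻¹' (e.symm ⁻¹' G)) ≤ ENNReal.ofReal (ρ ^ (m - (S.card - 1))) := by
    intro z
    rcases Set.eq_empty_or_nonempty (Prod.mk z ⁻¹' (e.symm ⁻¹' G)) with hemp | ⟨u0, hu0⟩
    · rw [hemp, measure_empty]; exact zero_le
    · have hx0 : e.symm (z, u0) ∈ G := hu0
      obtain ⟨v0, hv0, hvx0⟩ := minDep_vector hx0.1
      have hval1 : ∀ (u : {i : Fin m // i ∉ J} → Fin d → ℝ) (i : Fin m) (hi : i ∈ J),
          e.symm (z, u) i = z ⟨i, hi⟩ := by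
        intro u i hi
        simp [he, MeasurableEquiv.piEquivPiSubtypeProd, Equiv.piEquivPiSubtypeProd, hi]
      have hval2 : ∀ (u : {i : Fin m // i ∉ J} → Fin d → ℝ) (i : Fin m) (hi : i ∉ J),
          e.symm (z, u) i = u ⟨i, hi⟩ := by
        intro u i hi
        simp [he, MeasurableEquiv.piEquivPiSubtypeProd, Equiv.piEquivPiSubtypeProd, hi]
      have hsub : Prod.mk z ⁻¹' (e.symm ⁻¹' G) ⊆
          Set.univ.pi (fun _ : {i : Fin m // i ∉ J} => {y : Fin d → ℝ | ∑ j, v0 j * y j = 0}) := by
        intro u hu i _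
        have hx : e.symm (z, u) ∈ G := hu
        obtain ⟨v, hv, hvx⟩ := minDep_vector hx.1
        have hzz : ∀ i ∈ J, ∑ j ∈ S, v0 j * e.symm (z, u) i j = 0 := by
          intro i hi
          have h1 := hvx0 i
          rw [hval1 u0 i hi] at h1
          rw [hval1 u i hi]
          exact h1
        obtain ⟨c, hc⟩ := proportional_of_rows _ hx.2 hJ hS v v0 (fun j hj => (hv j).2 hj)
          (fun i _ => hvx i) hzz
        show ∑ j, v0 j * u i j = 0
        have h2 := hvx i
        rw [hval2 u i i.2] at h2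
        have h3 : ∑ j, v0 j * u i j = ∑ j ∈ S, v0 j * u i j := by
          symm
          apply Finset.sum_subset (Finset.subset_univ _)
          intro j _ hj
          have : v0 j = 0 := by
            by_contra hne
            exact hj ((hv0 j).1 hne)
          rw [this, zero_mul]
        rw [h3]
        have h4 : ∑ j ∈ S, v0 j * u i j = c * ∑ j ∈ S, v j * u i j := by
          rw [Finset.mul_sum]
          refine Finset.sum_congr rfl fun j hj => ?_
          rw [hc j hj]; ring
        rw [h4]
        have h5 : ∑ j ∈ S, v j * u i j = 0 := h2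
        rw [h5, mul_zero]
      refine (measure_mono hsub).trans ?_
      rw [hP2, Measure.pi_pi]
      have h6 : ∀ i : {i : Fin m // i ∉ J},
          (rowLaw η d) {y : Fin d → ℝ | ∑ j, v0 j * y j = 0} ≤ ENNReal.ofReal ρ := by
        intro i
        rw [← ENNReal.ofReal_toReal (measure_ne_top (rowLaw η d) _)]
        exact ENNReal.ofReal_le_ofReal (hρ v0 hv0)
      calc ∏ i : {i : Fin m // i ∉ J}, (rowLaw η d) {y : Fin d → ℝ | ∑ j, v0 j * y j = 0}
          ≤ ∏ i : {i : Fin m // i ∉ J}, ENNReal.ofReal ρ := Finset.prod_le_prod' fun i _ => h6 i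
        _ = ENNReal.ofReal (ρ ^ (m - (S.card - 1))) := by
          rw [Finset.prod_const, Finset.card_univ, Fintype.card_subtype_compl, Fintype.card_fin,
            Fintype.card_coe, hJ, ENNReal.ofReal_pow hρ0]
  have h1 : (Measure.pi fun _ : Fin m => rowLaw η d) G = (P1.prod P2) (e.symm ⁻¹' G) := by
    rw [← hmps.measure_preimage hGm.nullMeasurableSet, hP1, hP2, he]
    congr 4
    exact Subsingleton.elim _ _
  have h2 : (P1.prod P2) (e.symm ⁻¹' G) ≤ ENNReal.ofReal (ρ ^ (m - (S.card - 1))) := by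
    rw [Measure.prod_apply (e.symm.measurable hGm)]
    calc ∫⁻ z, P2 (Prod.mk z ⁻¹' (e.symm ⁻¹' G)) ∂P1
        ≤ ∫⁻ _, ENNReal.ofReal (ρ ^ (m - (S.card - 1))) ∂P1 := lintegral_mono key
      _ = _ := by simp
  unfold Measure.real
  rw [h1]
  exact ENNReal.toReal_le_of_le_ofReal (by positivity) h2

lemma real_minDep_le_large {m d : ℕ} (S : Finset (Fin d)) (hS : S.Nonempty)
    (ρ : ℝ) (hρ0 : 0 ≤ ρ)
    (hρ : ∀ v : Fin d → ℝ, (∀ j, v j ≠ 0 ↔ j ∈ S) →
      (rowLaw η d).real {y | ∑ j, v j * y j = 0} ≤ ρ) :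
    (Measure.pi fun _ : Fin m => rowLaw η d).real (MinDep S) ≤
      m.choose (S.card - 1) * ρ ^ (m - (S.card - 1)) := by
  classical
  have hsub : MinDep (m := m) S ⊆
      ⋃ J ∈ Finset.powersetCard (S.card - 1) (Finset.univ : Finset (Fin m)),
        (MinDep S ∩ RowsIndep S J) := by
    intro x hx
    obtain ⟨J, hJ, hJi⟩ := exists_rows_of_minDep hx hS
    simp only [Set.mem_iUnion, exists_prop]
    exact ⟨J, by rw [Finset.mem_powersetCard]; exact ⟨Finset.subset_univ _, hJ⟩, hx, hJi⟩
  calc (Measure.pi fun _ : Fin m => rowLaw η d).real (MinDep S)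
      ≤ _ := measureReal_mono hsub (measure_ne_top _ _)
    _ ≤ ∑ J ∈ Finset.powersetCard (S.card - 1) (Finset.univ : Finset (Fin m)),
        (Measure.pi fun _ : Fin m => rowLaw η d).real (MinDep S ∩ RowsIndep S J) :=
        measureReal_biUnion_finset_le _ _
    _ ≤ ∑ J ∈ Finset.powersetCard (S.card - 1) (Finset.univ : Finset (Fin m)),
        ρ ^ (m - (S.card - 1)) := by
        apply Finset.sum_le_sum
        intro J hJ
        rw [Finset.mem_powersetCard] at hJ
        exact real_minDep_inter_le η S hS J hJ.2 ρ hρ0 hρ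
    _ = _ := by
        rw [Finset.sum_const, Finset.card_powersetCard, Finset.card_univ, Fintype.card_fin,
          nsmul_eq_mul]

lemma smallCol_eq {m d k : ℕ} : SmallCol m d k =
    ⋃ s ∈ Finset.Icc 1 k, ⋃ S ∈ Finset.powersetCard s (Finset.univ : Finset (Fin d)),
      MinDep S := by
  classical
  ext x
  simp only [Set.mem_iUnion, exists_prop, Finset.mem_Icc, Finset.mem_powersetCard]
  constructor
  · intro hx
    obtain ⟨S, h1, h2, h3⟩ := exists_minDep_of_smallCol hx
    exact ⟨S.card, ⟨h1, h2⟩, S, ⟨Finset.subset_univ _, rfl⟩, h3⟩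
  · rintro ⟨s, ⟨hs1, hs2⟩, S, ⟨_, hS⟩, hx⟩
    obtain ⟨v, hv, hvx⟩ := minDep_vector hx
    have hfil : Finset.univ.filter (fun j => v j ≠ 0) = S := by
      ext j
      simp [hv j]
    refine ⟨v, ?_, ?_, fun i => ?_⟩
    · intro h0
      have hne : S.Nonempty := by
        rw [← Finset.card_pos]
        omega
      obtain ⟨j, hj⟩ := hne
      have := (hv j).2 hj
      rw [h0] at this
      exact this rfl
    · have : (Finset.univ.filter (fun j => v j ≠ 0)).card = s := by rw [hfil, hS]
      convert this.le.trans hs2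
    · rw [← hvx i]
      symm
      apply Finset.sum_subset (Finset.subset_univ _)
      intro j _ hj
      have : v j = 0 := by
        by_contra hne
        exact hj ((hv j).1 hne)
      rw [this, zero_mul]

lemma measurableSet_smallCol {m d k : ℕ} : MeasurableSet (SmallCol m d k) := by
  rw [smallCol_eq]
  exact Finset.measurableSet_biUnion _ fun s _ => Finset.measurableSet_biUnion _ fun S _ =>
    measurableSet_minDep S

/-- the bound attached to supports of size `s` -/
noncomputable def bnd (a θ : ℝ) (m s : ℕ) : ℝ :=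
  if (s : ℝ) < θ / a then (1 - s * (a * (1 - a) ^ (s - 1))) ^ m
  else m.choose (s - 1) * (1 - θ / 4) ^ (m - (s - 1))

theorem real_smallCol_le {m d k : ℕ} (hη : η.map (fun x => -x) = η) (θ : ℝ) (hθ : 0 < θ)
    (hθ2 : θ ≤ 1 / 2) (ha : 0 < nz η) :
    (Measure.pi fun _ : Fin m => rowLaw η d).real (SmallCol m d k) ≤
      ∑ s ∈ Finset.Icc 1 k, d.choose s * bnd (nz η) θ m s := by
  classical
  rw [smallCol_eq]
  refine (measureReal_biUnion_finset_le _ _).trans (Finset.sum_le_sum fun s hs => ?_)
  rw [Finset.mem_Icc] at hs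
  refine (measureReal_biUnion_finset_le _ _).trans ?_
  calc ∑ S ∈ Finset.powersetCard s (Finset.univ : Finset (Fin d)),
        (Measure.pi fun _ : Fin m => rowLaw η d).real (MinDep S)
      ≤ ∑ S ∈ Finset.powersetCard s (Finset.univ : Finset (Fin d)), bnd (nz η) θ m s := by
        apply Finset.sum_le_sum
        intro S hS
        rw [Finset.mem_powersetCard] at hS
        have hne : S.Nonempty := by
          rw [← Finset.card_pos]
          omega
        unfold bnd
        by_cases hc : (s : ℝ) < θ / nz η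
        · rw [if_pos hc, ← hS.2]
          exact real_minDep_le_small η S
        · rw [if_neg hc, ← hS.2]
          apply real_minDep_le_large η S hne (1 - θ / 4) (by linarith)
          intro v hv
          apply real_hyper_spread η hη v θ hθ hθ2 ha S (fun j hj => (hv j).2 hj)
          rw [hS.2]
          exact not_lt.1 hc
    _ = _ := by
        rw [Finset.sum_const, Finset.card_powersetCard, Finset.card_univ, Fintype.card_fin,
          nsmul_eq_mul]

lemma real_smallCol_mono {m m' d k : ℕ} (h : m ≤ m') :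
    (Measure.pi fun _ : Fin m' => rowLaw η d).real (SmallCol m' d k) ≤
      (Measure.pi fun _ : Fin m => rowLaw η d).real (SmallCol m d k) := by
  have hmp := map_comp_injective (rowLaw η d) (Fin.castLE h) (Fin.castLE_injective h)
  have h1 : (Measure.pi fun _ : Fin m => rowLaw η d).real (SmallCol m d k) =
      (Measure.pi fun _ : Fin m' => rowLaw η d).real
        ((fun (x : Fin m' → Fin d → ℝ) j => x (Fin.castLE h j)) ⁻¹' (SmallCol m d k)) := by
    unfold Measure.real
    rw [hmp.measure_preimage measurableSet_smallCol.nullMeasurableSet]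
  rw [h1]
  apply measureReal_mono _ (measure_ne_top _ _)
  rintro x ⟨v, hv, hk, hx⟩
  exact ⟨v, hv, hk, fun i => hx _⟩

lemma real_transpose {d k : ℕ} :
    (Measure.pi fun _ : Fin d => rowLaw η d).real
      {x | (fun (j i : Fin d) => x i j) ∈ SmallCol d d k} =
      (Measure.pi fun _ : Fin d => rowLaw η d).real (SmallCol d d k) := by
  unfold Measure.real
  rw [← (transpose_mp (m := d) (d := d) η).measure_preimage
    measurableSet_smallCol.nullMeasurableSet]
  rfl

/-- row `i` lies in the span of the other rows -/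
def InSpan {n d : ℕ} (i : Fin n) : Set (Fin n → Fin d → ℝ) :=
  {x | x i ∈ Submodule.span ℝ (x '' {j | j ≠ i})}

lemma measurableSet_inSpan {n d : ℕ} (i : Fin n) : MeasurableSet (InSpan (n := n) (d := d) i) := by
  classical
  have hop : ∀ J : Finset (Fin n), IsOpen {x : Fin n → Fin d → ℝ |
      LinearIndepOn ℝ x (J : Set (Fin n))} := by
    intro J
    have hc : Continuous (fun (x : Fin n → Fin d → ℝ) (j : (J : Set (Fin n))) => x j) := by
      fun_prop
    exact isOpen_setOfPred_linearIndependent.preimage hc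
  have : InSpan (n := n) (d := d) i =
      ⋃ J ∈ (Finset.univ : Finset (Finset (Fin n))).filter (fun J => i ∉ J),
        ({x : Fin n → Fin d → ℝ | LinearIndepOn ℝ x (J : Set (Fin n))} ∩
        {x : Fin n → Fin d → ℝ |
          LinearIndepOn ℝ x ((insert i J : Finset (Fin n)) : Set (Fin n))}ᶜ) := by
    ext x
    simp only [InSpan, Set.mem_iUnion, exists_prop, Finset.mem_filter, Finset.mem_univ, true_and,
      Set.mem_inter_iff, Set.mem_ofPred_eq, Set.mem_compl_iff]
    constructor
    · intro hx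
      obtain ⟨b, hb, _, hb1, hb2⟩ := exists_linearIndepOn_extension
        (K := ℝ) (v := x) (s := ∅) (t := {j | j ≠ i}) (linearIndepOn_empty _ _)
        (Set.empty_subset _)
      have hib : i ∉ b := fun h => (hb h) rfl
      refine ⟨b.toFinset, by simpa using hib, by simpa using hb2, ?_⟩
      intro hcon
      rw [Finset.coe_insert, linearIndepOn_insert (by simpa using hib)] at hcon
      apply hcon.2
      have : Submodule.span ℝ (x '' {j | j ≠ i}) ≤ Submodule.span ℝ (x '' b) :=
        Submodule.span_le.2 hb1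
      simpa using this hx
    · rintro ⟨J, hiJ, h1, h2⟩
      rw [Finset.coe_insert, linearIndepOn_insert (by simpa using hiJ)] at h2
      have h3 : x i ∈ Submodule.span ℝ (x '' (J : Set (Fin n))) := by
        by_contra h
        exact h2 ⟨h1, h⟩
      refine Submodule.span_mono ?_ h3
      apply Set.image_mono
      intro j hj
      simp only [Set.mem_ofPred_eq]
      rintro rfl
      exact hiJ hj
  rw [this]
  exact Finset.measurableSet_biUnion _ fun J _ => (hop J).measurableSet.inter
    (hop _).measurableSet.compl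

lemma exists_orthogonal {n : ℕ} (z : Fin n → Fin (n + 1) → ℝ) :
    ∃ w : Fin (n + 1) → ℝ, w ≠ 0 ∧ ∀ i, ∑ j, w j * z i j = 0 := by
  set A : Matrix (Fin n) (Fin (n + 1)) ℝ := Matrix.of z with hA
  have h1 : LinearMap.ker A.mulVecLin ≠ ⊥ := by
    apply LinearMap.ker_ne_bot_of_finrank_lt
    simp
  obtain ⟨w, hw, hw0⟩ := Submodule.exists_mem_ne_zero_of_ne_bot h1
  refine ⟨w, hw0, fun i => ?_⟩
  rw [LinearMap.mem_ker] at hw
  have := congrFun hw i
  simp only [Matrix.mulVecLin_apply, Matrix.mulVec, dotProduct, hA, Matrix.of_apply,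
    Pi.zero_apply] at this
  rw [← this]
  refine Finset.sum_congr rfl fun j _ => by ring

lemma real_inSpan_le {n k : ℕ} (i : Fin (n + 1)) (ρ : ℝ) (hρ0 : 0 ≤ ρ)
    (hρ : ∀ w : Fin (n + 1) → ℝ, k < (Finset.univ.filter (fun j => w j ≠ 0)).card →
      (rowLaw η (n + 1)).real {y | ∑ j, w j * y j = 0} ≤ ρ) :
    (Measure.pi fun _ : Fin (n + 1) => rowLaw η (n + 1)).real (InSpan i) ≤
      (Measure.pi fun _ : Fin n => rowLaw η (n + 1)).real (SmallCol n (n + 1) k) + ρ := by
  classical
  set ν := rowLaw η (n + 1) with hν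
  set P' := (Measure.pi fun _ : Fin n => ν) with hP'
  have hmp := measurePreserving_piFinSuccAbove (fun _ : Fin (n + 1) => ν) i
  set e := MeasurableEquiv.piFinSuccAbove (fun _ : Fin (n + 1) => (Fin (n + 1) → ℝ)) i with he
  have hmps := hmp.symm
  have hGm := measurableSet_inSpan (n := n + 1) (d := n + 1) i
  have key : ∀ z : Fin n → Fin (n + 1) → ℝ,
      ν ((fun y => (y, z)) ⁻¹' (e.symm ⁻¹' (InSpan i))) ≤
        (SmallCol n (n + 1) k).indicator (fun _ => (1 : ENNReal)) z + ENNReal.ofReal ρ := by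
    intro z
    by_cases hz : z ∈ SmallCol n (n + 1) k
    · rw [Set.indicator_of_mem hz]
      exact prob_le_one.trans le_self_add
    · rw [Set.indicator_of_notMem hz, zero_add]
      obtain ⟨w, hw0, hw⟩ := exists_orthogonal z
      have hcard : k < (Finset.univ.filter (fun j => w j ≠ 0)).card := by
        by_contra h
        apply hz
        refine ⟨w, hw0, ?_, hw⟩
        convert not_lt.1 h
      have hsub : ((fun y => (y, z)) ⁻¹' (e.symm ⁻¹' (InSpan i))) ⊆
          {y | ∑ j, w j * y j = 0} := by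
        intro y hy
        have hy' : e.symm (y, z) i ∈ Submodule.span ℝ (e.symm (y, z) '' {j | j ≠ i}) := hy
        have e1 : e.symm (y, z) i = y := by
          simp [he, MeasurableEquiv.piFinSuccAbove]
        have e2 : ∀ j, e.symm (y, z) (i.succAbove j) = z j := by
          intro j
          simp [he, MeasurableEquiv.piFinSuccAbove]
        rw [e1] at hy'
        have hle : Submodule.span ℝ (e.symm (y, z) '' {j | j ≠ i}) ≤
            LinearMap.ker (dotProductEquiv ℝ (Fin (n + 1)) w) := by
          rw [Submodule.span_le]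
          rintro _ ⟨j, hj, rfl⟩
          obtain ⟨j', rfl⟩ := Fin.exists_succAbove_eq hj
          rw [e2]
          exact hw j'
        have := hle hy'
        exact this
      refine (measure_mono hsub).trans ?_
      rw [← ENNReal.ofReal_toReal (measure_ne_top ν _)]
      exact ENNReal.ofReal_le_ofReal (hρ w hcard)
  have h1 : (Measure.pi fun _ : Fin (n + 1) => ν) (InSpan i) =
      (ν.prod P') (e.symm ⁻¹' (InSpan i)) := by
    rw [← hmps.measure_preimage hGm.nullMeasurableSet]
  have h2 : (ν.prod P') (e.symm ⁻¹' (InSpan i)) ≤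
      P' (SmallCol n (n + 1) k) + ENNReal.ofReal ρ := by
    rw [Measure.prod_apply_symm (e.symm.measurable hGm)]
    calc ∫⁻ z, ν ((fun y => (y, z)) ⁻¹' (e.symm ⁻¹' (InSpan i))) ∂P'
        ≤ ∫⁻ z, ((SmallCol n (n + 1) k).indicator (fun _ => (1 : ENNReal)) z +
            ENNReal.ofReal ρ) ∂P' := lintegral_mono key
      _ = _ := by
        rw [lintegral_add_right _ measurable_const, lintegral_indicator measurableSet_smallCol]
        simp
  unfold Measure.real
  rw [h1, ← ENNReal.toReal_ofReal hρ0, ← ENNReal.toReal_add (measure_ne_top _ _)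
    ENNReal.ofReal_ne_top]
  apply ENNReal.toReal_mono _ h2
  exact ENNReal.add_ne_top.2 ⟨measure_ne_top _ _, ENNReal.ofReal_ne_top⟩

/-- **Main combinatorial bound** for the singularity probability of a square matrix. -/
theorem depProb_le {n k : ℕ} (ρ : ℝ) (hρ0 : 0 ≤ ρ)
    (hρ : ∀ w : Fin (n + 1) → ℝ, k < (Finset.univ.filter (fun j => w j ≠ 0)).card →
      (rowLaw η (n + 1)).real {y | ∑ j, w j * y j = 0} ≤ ρ) :
    depProb (rowLaw η (n + 1)) (n + 1) ≤
      (Measure.pi fun _ : Fin n => rowLaw η (n + 1)).real (SmallCol n (n + 1) k) +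
      ((n + 1 : ℝ) / (k + 1)) *
        ((Measure.pi fun _ : Fin n => rowLaw η (n + 1)).real (SmallCol n (n + 1) k) + ρ) := by
  classical
  set ν := rowLaw η (n + 1) with hν
  set P := (Measure.pi fun _ : Fin (n + 1) => ν) with hP
  set q := (Measure.pi fun _ : Fin n => ν).real (SmallCol n (n + 1) k) with hq
  set R := {x : Fin (n + 1) → Fin (n + 1) → ℝ |
    (fun (j i : Fin (n + 1)) => x i j) ∈ SmallCol (n + 1) (n + 1) k} with hR
  have hRle : P.real R ≤ q := by
    rw [hR, hP, hν, real_transpose]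
    exact real_smallCol_mono η (Nat.le_succ n)
  set f : (Fin (n + 1) → Fin (n + 1) → ℝ) → ℝ :=
    fun x => ∑ i : Fin (n + 1), (InSpan i).indicator (fun _ => (1 : ℝ)) x with hf
  have hfint : Integrable f P := integrable_finsetSum _ fun i _ =>
    (integrable_const _).indicator (measurableSet_inSpan i)
  have hfval : ∫ x, f x ∂P = ∑ i : Fin (n + 1), P.real (InSpan i) := by
    rw [hf, integral_finsetSum _ fun i _ => (integrable_const _).indicator
      (measurableSet_inSpan i)]
    refine Finset.sum_congr rfl fun i _ => ?_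
    rw [integral_indicator (measurableSet_inSpan i)]
    simp only [integral_const, smul_eq_mul, mul_one, MeasurableSet.univ, measureReal_restrict_apply,
      Set.univ_inter]
  have hfle : ∫ x, f x ∂P ≤ (n + 1) * (q + ρ) := by
    rw [hfval]
    calc ∑ i : Fin (n + 1), P.real (InSpan i) ≤ ∑ i : Fin (n + 1), (q + ρ) :=
          Finset.sum_le_sum fun i _ => real_inSpan_le η i ρ hρ0 hρ
      _ = _ := by
        simp
        ring
  have hmarkov : P.real {x | ((k : ℝ) + 1) ≤ f x} ≤ ((n + 1 : ℝ) / (k + 1)) * (q + ρ) := by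
    have h1 := mul_meas_ge_le_integral_of_nonneg (μ := P) (f := f)
      (Filter.Eventually.of_forall fun x => Finset.sum_nonneg fun i _ =>
        Set.indicator_nonneg (fun _ _ => zero_le_one) x) hfint ((k : ℝ) + 1)
    have h2 : ((k : ℝ) + 1) * P.real {x | ((k : ℝ) + 1) ≤ f x} ≤ (n + 1) * (q + ρ) :=
      h1.trans hfle
    have hk : (0 : ℝ) < (k : ℝ) + 1 := by positivity
    rw [div_mul_eq_mul_div, le_div_iff₀ hk]
    linarith
  have hsub : {x : Fin (n + 1) → Fin (n + 1) → ℝ | ¬ LinearIndependent ℝ x} ⊆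
      R ∪ {x | ((k : ℝ) + 1) ≤ f x} := by
    intro x hx
    simp only [Set.mem_ofPred_eq] at hx
    rw [Fintype.not_linearIndependent_iff] at hx
    obtain ⟨g, hg, i0, hi0⟩ := hx
    by_cases hcard : (Finset.univ.filter (fun i => g i ≠ 0)).card ≤ k
    · left
      refine ⟨g, ?_, ?_, fun j => ?_⟩
      · intro h0
        apply hi0
        rw [h0]; rfl
      · convert hcard
      · have := congrFun hg j
        simpa [Finset.sum_apply] using this
    · right
      push Not at hcard
      show (k : ℝ) + 1 ≤ f x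
      have h1 : ((Finset.univ.filter (fun i => g i ≠ 0)).card : ℝ) ≤ f x := by
        rw [hf, Finset.card_filter]
        push_cast
        apply Finset.sum_le_sum
        intro i _
        by_cases hi : g i ≠ 0
        · rw [if_pos hi, Set.indicator_of_mem]
          show x i ∈ Submodule.span ℝ (x '' {j | j ≠ i})
          rw [← Finset.add_sum_erase Finset.univ _ (Finset.mem_univ i)] at hg
          have h2 : x i = ∑ j ∈ Finset.univ.erase i, (-(g i)⁻¹ * g j) • x j := by
            have h3 : g i • x i = -∑ j ∈ Finset.univ.erase i, g j • x j :=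
              eq_neg_of_add_eq_zero_left hg
            have h4 : x i = (g i)⁻¹ • (g i • x i) := by
              rw [smul_smul, inv_mul_cancel₀ hi, one_smul]
            rw [h4, h3, smul_neg, Finset.smul_sum, ← Finset.sum_neg_distrib]
            refine Finset.sum_congr rfl fun j _ => ?_
            rw [smul_smul, neg_mul, neg_smul]
          rw [h2]
          apply Submodule.sum_mem
          intro j hj
          apply Submodule.smul_mem
          apply Submodule.subset_span
          exact ⟨j, (Finset.mem_erase.1 hj).1, rfl⟩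
        · rw [if_neg hi]
          exact Set.indicator_nonneg (fun _ _ => zero_le_one) x
      have h2 : ((k : ℝ) + 1) ≤ ((Finset.univ.filter (fun i => g i ≠ 0)).card : ℝ) := by
        exact_mod_cast hcard
      exact h2.trans h1
  calc depProb ν (n + 1) ≤ P.real (R ∪ {x | ((k : ℝ) + 1) ≤ f x}) :=
        measureReal_mono hsub (measure_ne_top _ _)
    _ ≤ P.real R + P.real {x | ((k : ℝ) + 1) ≤ f x} := measureReal_union_le _ _
    _ ≤ _ := add_le_add hRle hmarkov

end Prob

end Pool.Agent.Lib.MP_f7f952_pr
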