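import Mathlib
import Pool.Agent.Lib.MP_f7f952_pr.Sing

/-!
# Asymptotic analysis: the singularity probability tends to zero
-/

open MeasureTheory Filter Topology

namespace Pool.Agent.Lib.MP_f7f952_pr

lemma choose_mul_pow_le (d s : ℕ) (l : ℝ) (hl : 0 ≤ l) :
    (d.choose s : ℝ) * l ^ s ≤ (1 + l) ^ d := by
  by_cases hs : s ≤ d
  · rw [add_comm, add_pow]
    have := Finset.single_le_sum (f := fun m => l ^ m * 1 ^ (d - m) * (d.choose m : ℝ))
      (fun i _ => by positivity) (Finset.mem_range.2 (Nat.lt_succ_of_le hs))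
    simp only [one_pow, mul_one] at this ⊢
    linarith
  · rw [Nat.choose_eq_zero_of_lt (not_le.1 hs)]
    simp
    positivity

lemma geom_Icc_le (r : ℝ) (hr0 : 0 ≤ r) (hr : r ≤ 1 / 2) (k : ℕ) :
    ∑ s ∈ Finset.Icc 1 k, r ^ s ≤ 2 * r := by
  have h : ∑ s ∈ Finset.Icc 1 k, r ^ s ≤ 2 * r * (1 - (1 / 2) ^ k) := by
    induction k with
    | zero => simp
    | succ k ih =>
      rw [Finset.sum_Icc_succ_top (by omega)]
      have h1 : r ^ (k + 1) ≤ r * (1 / 2) ^ k := by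
        rw [pow_succ, mul_comm]
        apply mul_le_mul_of_nonneg_left _ hr0
        exact pow_le_pow_left₀ hr0 hr k
      have h2 : (2 : ℝ) * r * (1 - (1 / 2) ^ (k + 1)) =
          2 * r * (1 - (1 / 2) ^ k) + r * (1 / 2) ^ k := by
        rw [pow_succ]
        ring
      rw [h2]
      exact add_le_add ih h1
  have h3 : (0 : ℝ) ≤ (1 / 2) ^ k := by positivity
  nlinarith

lemma small_term_le {a θ : ℝ} {n s : ℕ} (ha : 0 < a) (ha1 : a ≤ 1) (hθ2 : θ ≤ 1 / 2)
    (hs1 : 1 ≤ s) (hs : (s : ℝ) < θ / a) :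
    ((n + 1).choose s : ℝ) * bnd a θ n s ≤ (((n : ℝ) + 1) * Real.exp (-(a * (1 - θ) * n))) ^ s := by
  unfold bnd
  rw [if_pos hs, mul_pow]
  rw [lt_div_iff₀ ha] at hs
  have h1 : ((n + 1).choose s : ℝ) ≤ ((n : ℝ) + 1) ^ s := by
    have := Nat.choose_le_pow (n + 1) s
    exact_mod_cast this
  have h2 : 1 - θ ≤ (1 - a) ^ (s - 1) := by
    have hb := one_add_mul_le_pow (a := -a) (by linarith) (s - 1)
    have : (1 + -a) ^ (s - 1) = (1 - a) ^ (s - 1) := by ring_nf
    rw [this] at hb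
    have h3 : ((s - 1 : ℕ) : ℝ) ≤ s := by exact_mod_cast Nat.sub_le s 1
    have h4 : ((s - 1 : ℕ) : ℝ) * a ≤ s * a := mul_le_mul_of_nonneg_right h3 ha.le
    linarith
  have h5 : (1 - a) ^ (s - 1) ≤ 1 := pow_le_one₀ (by linarith) (by linarith)
  have hs0 : (0 : ℝ) ≤ s := by positivity
  have h6 : (s : ℝ) * (a * (1 - θ)) ≤ s * (a * (1 - a) ^ (s - 1)) := by
    apply mul_le_mul_of_nonneg_left _ hs0
    exact mul_le_mul_of_nonneg_left h2 ha.le
  have h7 : (s : ℝ) * (a * (1 - a) ^ (s - 1)) ≤ 1 := by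
    have : (s : ℝ) * (a * (1 - a) ^ (s - 1)) ≤ s * (a * 1) := by
      apply mul_le_mul_of_nonneg_left _ hs0
      exact mul_le_mul_of_nonneg_left h5 ha.le
    linarith
  have h8 : (1 - s * (a * (1 - a) ^ (s - 1))) ≤ Real.exp (-(s * (a * (1 - θ)))) := by
    have := Real.add_one_le_exp (-(s * (a * (1 - θ))))
    linarith
  have h9 : (1 - s * (a * (1 - a) ^ (s - 1))) ^ n ≤ (Real.exp (-(a * (1 - θ) * n))) ^ s := by
    calc (1 - s * (a * (1 - a) ^ (s - 1))) ^ n ≤ (Real.exp (-(s * (a * (1 - θ))))) ^ n :=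
          pow_le_pow_left₀ (by linarith) h8 n
      _ = (Real.exp (-(a * (1 - θ) * n))) ^ s := by
          rw [← Real.exp_nat_mul, ← Real.exp_nat_mul]
          congr 1
          ring
  apply mul_le_mul h1 h9 (by apply pow_nonneg; linarith) (by positivity)

/-- parameters for the range of large supports -/
structure LargeParams (r : ℝ) where
  l : ℝ
  N : ℕ
  l_pos : 0 < l
  l_le : l ≤ 1
  h1 : (1 + l) ^ 8 * r ^ 4 ≤ 1
  h2 : r ^ (4 * N) ≤ l ^ 8
  hN : 4 ≤ N

lemma exists_largeParams (r : ℝ) (hr0 : 0 < r) (hr1 : r < 1) : Nonempty (LargeParams r) := by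
  have hcont : Continuous (fun l : ℝ => (1 + l) ^ 8 * r ^ 4) := by fun_prop
  have h0 : (fun l : ℝ => (1 + l) ^ 8 * r ^ 4) 0 < 1 := by
    simp only [add_zero, one_pow, one_mul]
    exact pow_lt_one₀ hr0.le hr1 (by norm_num)
  have hev : ∀ᶠ l in 𝓝[>] (0 : ℝ), (1 + l) ^ 8 * r ^ 4 < 1 :=
    (hcont.continuousAt.eventually (gt_mem_nhds h0)).filter_mono nhdsWithin_le_nhds
  have hev2 : ∀ᶠ l in 𝓝[>] (0 : ℝ), l < 1 :=
    (gt_mem_nhds (show (0 : ℝ) < 1 by norm_num)).filter_mono nhdsWithin_le_nhds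
  obtain ⟨l, hl1, hl2, hl3⟩ := (hev.and (hev2.and self_mem_nhdsWithin)).exists
  have hl3' : 0 < l := hl3
  obtain ⟨N, hN⟩ := exists_pow_lt_of_lt_one (show (0 : ℝ) < l ^ 8 by positivity) hr1
  refine ⟨⟨l, max N 4, hl3', hl2.le, hl1.le, ?_, le_max_right _ _⟩⟩
  refine le_trans ?_ hN.le
  apply pow_le_pow_of_le_one hr0.le hr1.le
  have := le_max_left N 4
  omega

lemma large_term_le {r : ℝ} (hr0 : 0 < r) (hr1 : r < 1) (L : LargeParams r) {a θ : ℝ}
    (hθ : 1 - θ / 4 = r ^ 4) {n s : ℕ} (hs1 : 1 ≤ s) (hs : ¬ (s : ℝ) < θ / a)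
    (hsN : s * L.N ≤ n + 1) :
    ((n + 1).choose s : ℝ) * bnd a θ n s ≤ r ^ (n + 1) := by
  unfold bnd
  rw [if_neg hs, hθ]
  have hN := L.hN
  have hsn : s ≤ n := by
    have : s * 4 ≤ s * L.N := Nat.mul_le_mul_left s hN
    omega
  have e1 : n - (s - 1) = n + 1 - s := by omega
  rw [e1]
  have h1 : (n.choose (s - 1) : ℝ) ≤ ((n + 1).choose s : ℝ) := by
    have : (n + 1).choose s = n.choose (s - 1) + n.choose s := by
      obtain ⟨t, rfl⟩ : ∃ t, s = t + 1 := ⟨s - 1, by omega⟩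
      rw [Nat.choose_succ_succ]
      simp
    rw [this]
    push_cast
    have : (0 : ℝ) ≤ n.choose s := by positivity
    linarith
  have h2 := choose_mul_pow_le (n + 1) s L.l L.l_pos.le
  set C := ((n + 1).choose s : ℝ) with hC
  have hC0 : 0 ≤ C := by positivity
  -- it suffices to compare eighth powers times the weights
  have hT : C * ((n.choose (s - 1) : ℝ) * (r ^ 4) ^ (n + 1 - s)) ≤ C ^ 2 * (r ^ 4) ^ (n + 1 - s) := by
    have h3 : (0 : ℝ) ≤ (r ^ 4) ^ (n + 1 - s) := by positivity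
    calc C * ((n.choose (s - 1) : ℝ) * (r ^ 4) ^ (n + 1 - s))
        ≤ C * (C * (r ^ 4) ^ (n + 1 - s)) := by
          apply mul_le_mul_of_nonneg_left _ hC0
          exact mul_le_mul_of_nonneg_right h1 h3
      _ = _ := by ring
  refine hT.trans ?_
  have hpow : (C ^ 2 * (r ^ 4) ^ (n + 1 - s)) ^ 4 ≤ (r ^ (n + 1)) ^ 4 := by
    have hl := L.l_pos
    have h8 : C ^ 8 * L.l ^ (8 * s) ≤ (1 + L.l) ^ (8 * (n + 1)) := by
      have := pow_le_pow_left₀ (by positivity) h2 8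
      calc C ^ 8 * L.l ^ (8 * s) = (C * L.l ^ s) ^ 8 := by
            rw [mul_pow, ← pow_mul, mul_comm s 8]
        _ ≤ ((1 + L.l) ^ (n + 1)) ^ 8 := this
        _ = _ := by rw [← pow_mul, mul_comm (n + 1) 8]
    have h9 : (1 + L.l) ^ (8 * (n + 1)) * r ^ (4 * (n + 1)) ≤ 1 := by
      have := pow_le_one₀ (n := n + 1) (by positivity) L.h1
      calc (1 + L.l) ^ (8 * (n + 1)) * r ^ (4 * (n + 1)) = ((1 + L.l) ^ 8 * r ^ 4) ^ (n + 1) := by
            rw [mul_pow, ← pow_mul, ← pow_mul]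
        _ ≤ 1 := this
    have h10 : r ^ (4 * (n + 1)) ≤ L.l ^ (8 * s) := by
      calc r ^ (4 * (n + 1)) ≤ r ^ (4 * (s * L.N)) := by
            apply pow_le_pow_of_le_one hr0.le hr1.le
            omega
        _ = (r ^ (4 * L.N)) ^ s := by
            rw [← pow_mul]
            congr 1
            ring
        _ ≤ (L.l ^ 8) ^ s := pow_le_pow_left₀ (by positivity) L.h2 s
        _ = _ := by rw [← pow_mul]
    have h11 : C ^ 8 * r ^ (8 * (n + 1)) ≤ 1 := by
      calc C ^ 8 * r ^ (8 * (n + 1)) = C ^ 8 * r ^ (4 * (n + 1)) * r ^ (4 * (n + 1)) := by ring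
        _ ≤ C ^ 8 * L.l ^ (8 * s) * r ^ (4 * (n + 1)) := by
            apply mul_le_mul_of_nonneg_right _ (by positivity)
            exact mul_le_mul_of_nonneg_left h10 (by positivity)
        _ ≤ (1 + L.l) ^ (8 * (n + 1)) * r ^ (4 * (n + 1)) :=
            mul_le_mul_of_nonneg_right h8 (by positivity)
        _ ≤ 1 := h9
    have h12 : r ^ (16 * (n + 1 - s)) ≤ r ^ (12 * (n + 1)) := by
      apply pow_le_pow_of_le_one hr0.le hr1.le
      have : s * 4 ≤ s * L.N := Nat.mul_le_mul_left s hN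
      omega
    calc (C ^ 2 * (r ^ 4) ^ (n + 1 - s)) ^ 4 = C ^ 8 * r ^ (16 * (n + 1 - s)) := by
          rw [mul_pow, ← pow_mul, ← pow_mul, ← pow_mul]
          congr 2
          ring
      _ ≤ C ^ 8 * r ^ (12 * (n + 1)) := mul_le_mul_of_nonneg_left h12 (by positivity)
      _ = C ^ 8 * r ^ (8 * (n + 1)) * r ^ (4 * (n + 1)) := by ring
      _ ≤ 1 * r ^ (4 * (n + 1)) := mul_le_mul_of_nonneg_right h11 (by positivity)
      _ = (r ^ (n + 1)) ^ 4 := by
          rw [one_mul, ← pow_mul]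
          congr 1
          ring
  exact le_of_pow_le_pow_left₀ (by norm_num) (by positivity) hpow

/-- one sum bound for all supports of size at most `(n+1)/N` -/
lemma smallCol_bound (η : Measure ℝ) [IsProbabilityMeasure η] (hη : η.map (fun x => -x) = η)
    {ε : ℝ} (hε : 0 < ε) {θ : ℝ} (hθ : θ = ε / (2 * (1 + ε))) {r : ℝ} (hr0 : 0 < r)
    (hr1 : r < 1) (hr : 1 - θ / 4 = r ^ 4) (L : LargeParams r) {n : ℕ} (hn : 1 ≤ n)
    (ha : (1 + ε) * Real.log (n + 1) / (n + 1) ≤ nz η) {R : ℝ}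
    (hR : R = Real.exp (-(ε / 2) * Real.log (n + 1) + (1 + ε / 2))) (hR2 : R ≤ 1 / 2) :
    (Measure.pi fun _ : Fin n => rowLaw η (n + 1)).real (SmallCol n (n + 1) ((n + 1) / L.N)) ≤
      2 * R + (n + 1) * r ^ (n + 1) := by
  have hm : (0 : ℝ) < (n : ℝ) + 1 := by positivity
  have hm2 : (2 : ℝ) ≤ (n : ℝ) + 1 := by
    have : (1 : ℝ) ≤ n := by exact_mod_cast hn
    linarith
  have hlog : 0 < Real.log ((n : ℝ) + 1) := Real.log_pos (by linarith)
  have ha0 : 0 < nz η := lt_of_lt_of_le (by positivity) ha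
  have ha1 : nz η ≤ 1 := nz_le_one η
  have hθ0 : 0 < θ := by
    rw [hθ]
    positivity
  have hθ2 : θ ≤ 1 / 2 := by
    rw [hθ, div_le_div_iff₀ (by positivity) (by norm_num)]
    linarith
  have hR0 : 0 ≤ R := by
    rw [hR]
    positivity
  refine (real_smallCol_le η hη θ hθ0 hθ2 ha0).trans ?_
  have hbase : ((n : ℝ) + 1) * Real.exp (-(nz η * (1 - θ) * n)) ≤ R := by
    have h1 : ((n : ℝ) + 1) = Real.exp (Real.log (n + 1)) := (Real.exp_log hm).symm
    have h2 : ((n : ℝ) + 1) * Real.exp (-(nz η * (1 - θ) * n)) =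
        Real.exp (Real.log (n + 1) - nz η * (1 - θ) * n) := by
      rw [sub_eq_add_neg (Real.log ((n : ℝ) + 1)), Real.exp_add, Real.exp_log hm]
    rw [h2, hR]
    apply Real.exp_le_exp.2
    have h3 : (1 + ε) * (1 - θ) = 1 + ε / 2 := by
      rw [hθ]
      field_simp
      ring
    have h4 : (1 + ε) * Real.log (n + 1) / (n + 1) * ((1 - θ) * n) ≤ nz η * ((1 - θ) * n) := by
      apply mul_le_mul_of_nonneg_right ha
      have : (0 : ℝ) ≤ n := by positivity
      have : 0 ≤ 1 - θ := by linarith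
      positivity
    have h5 : (1 + ε) * Real.log (n + 1) / (n + 1) * ((1 - θ) * n) =
        (1 + ε / 2) * (Real.log (n + 1) * (n / (n + 1))) := by
      rw [← h3]
      field_simp
    have h6 : (n : ℝ) / (n + 1) = 1 - 1 / (n + 1) := by
      field_simp
      ring
    have h7 : Real.log ((n : ℝ) + 1) * (1 / (n + 1)) ≤ 1 := by
      rw [mul_one_div, div_le_one hm]
      have := Real.log_le_sub_one_of_pos hm
      linarith
    have h8 : Real.log ((n : ℝ) + 1) * (n / (n + 1)) ≥ Real.log (n + 1) - 1 := by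
      rw [h6, mul_sub, mul_one]
      linarith
    have h9 : (1 + ε / 2) * (Real.log (n + 1) - 1) ≤
        (1 + ε / 2) * (Real.log (n + 1) * (n / (n + 1))) :=
      mul_le_mul_of_nonneg_left h8 (by positivity)
    nlinarith
  have hterm : ∀ s ∈ Finset.Icc 1 ((n + 1) / L.N),
      ((n + 1).choose s : ℝ) * bnd (nz η) θ n s ≤ R ^ s + r ^ (n + 1) := by
    intro s hs
    rw [Finset.mem_Icc] at hs
    by_cases hc : (s : ℝ) < θ / nz η
    · have h1 := small_term_le (n := n) ha0 ha1 hθ2 hs.1 hc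
      have h2 : (((n : ℝ) + 1) * Real.exp (-(nz η * (1 - θ) * n))) ^ s ≤ R ^ s :=
        pow_le_pow_left₀ (by positivity) hbase s
      have h3 : 0 ≤ r ^ (n + 1) := by positivity
      linarith
    · have h1 := large_term_le hr0 hr1 L hr (n := n) hs.1 hc ?_
      · have h3 : 0 ≤ R ^ s := by positivity
        linarith
      · calc s * L.N ≤ (n + 1) / L.N * L.N := Nat.mul_le_mul_right _ hs.2
          _ ≤ n + 1 := Nat.div_mul_le_self _ _
  refine (Finset.sum_le_sum hterm).trans ?_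
  rw [Finset.sum_add_distrib]
  apply add_le_add
  · exact geom_Icc_le R hR0 hR2 _
  · rw [Finset.sum_const, Nat.card_Icc, nsmul_eq_mul]
    apply mul_le_mul_of_nonneg_right _ (by positivity)
    have : (n + 1) / L.N + 1 - 1 ≤ n + 1 := by
      have := Nat.div_le_self (n + 1) L.N
      omega
    calc (((n + 1) / L.N + 1 - 1 : ℕ) : ℝ) ≤ ((n + 1 : ℕ) : ℝ) := by exact_mod_cast this
      _ = _ := by push_cast; ring

/-- the Littlewood–Offord part -/
lemma lo_bound (η : Measure ℝ) [IsProbabilityMeasure η] (hη : η.map (fun x => -x) = η)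
    {ε : ℝ} (hε : 0 < ε) {N K n : ℕ} (hN : 1 ≤ N) (hK : 1 ≤ K)
    (ha : (1 + ε) * Real.log (n + 1) / (n + 1) ≤ nz η) (w : Fin (n + 1) → ℝ)
    (hw : (n + 1) / N < (Finset.univ.filter (fun j => w j ≠ 0)).card) :
    (rowLaw η (n + 1)).real {y | ∑ j, w j * y j = 0} ≤
      K * Real.exp (1 - (1 + ε) * Real.log (n + 1) / (N * K)) + 1 / Real.sqrt K := by
  refine (real_hyper_lo η hη w K hK).trans ?_
  apply add_le_add _ le_rfl
  have hm : (0 : ℝ) < (n : ℝ) + 1 := by positivity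
  have hNR : (0 : ℝ) < N := by exact_mod_cast hN
  have hKR : (0 : ℝ) < K := by exact_mod_cast hK
  have ha1 : nz η ≤ 1 := nz_le_one η
  have ha00 : 0 ≤ nz η := nz_nonneg η
  set k := (n + 1) / N with hk
  have h1 := real_nnz_lt η w (Finset.univ.filter (fun j => w j ≠ 0))
    (fun j hj => (Finset.mem_filter.1 hj).2) K ((k + 1) / K) (by
      calc K * ((k + 1) / K) ≤ k + 1 := Nat.mul_div_le _ _
        _ ≤ _ := hw)
  refine h1.trans ?_
  apply mul_le_mul_of_nonneg_left _ hKR.le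
  have h2 : (1 - nz η) ^ ((k + 1) / K) ≤ Real.exp (-(nz η * ((k + 1) / K : ℕ))) := by
    calc (1 - nz η) ^ ((k + 1) / K) ≤ (Real.exp (-nz η)) ^ ((k + 1) / K) := by
          apply pow_le_pow_left₀ (by linarith)
          have := Real.add_one_le_exp (-nz η)
          linarith
      _ = _ := by
          rw [← Real.exp_nat_mul]
          congr 1
          ring
  refine h2.trans (Real.exp_le_exp.2 ?_)
  have h3 : ((n : ℝ) + 1) / N ≤ k + 1 := by
    rw [div_le_iff₀ hNR]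
    have := Nat.lt_div_mul_add (a := n + 1) (b := N) (by omega)
    have h4 : (n + 1 : ℕ) ≤ (k + 1) * N := by
      rw [add_mul, one_mul]
      exact this.le
    exact_mod_cast h4
  have h5 : ((k : ℝ) + 1) / K - 1 ≤ ((k + 1) / K : ℕ) := by
    have := Nat.lt_div_mul_add (a := k + 1) (b := K) (by omega)
    have h6 : (k + 1 : ℕ) ≤ ((k + 1) / K + 1) * K := by
      rw [add_mul, one_mul]
      exact this.le
    have h7 : ((k : ℝ) + 1) ≤ ((((k + 1) / K : ℕ) : ℝ) + 1) * K := by exact_mod_cast h6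
    rw [← div_le_iff₀ hKR] at h7
    linarith
  have h8 : ((n : ℝ) + 1) / (N * K) - 1 ≤ ((k + 1) / K : ℕ) := by
    have : ((n : ℝ) + 1) / (N * K) ≤ ((k : ℝ) + 1) / K := by
      rw [← div_div]
      exact div_le_div_of_nonneg_right h3 hKR.le
    linarith
  have h9 : nz η * (((n : ℝ) + 1) / (N * K) - 1) ≤ nz η * ((k + 1) / K : ℕ) :=
    mul_le_mul_of_nonneg_left h8 ha00
  have h10 : (1 + ε) * Real.log (n + 1) / (n + 1) * (((n : ℝ) + 1) / (N * K)) ≤
      nz η * (((n : ℝ) + 1) / (N * K)) :=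
    mul_le_mul_of_nonneg_right ha (by positivity)
  have h11 : (1 + ε) * Real.log (n + 1) / (n + 1) * (((n : ℝ) + 1) / (N * K)) =
      (1 + ε) * Real.log (n + 1) / (N * K) := by
    field_simp
  nlinarith

theorem sing_tendsto {ε τ : ℝ} (hε : 0 < ε) (hτ : 0 < τ) :
    ∃ D : ℕ, ∀ n : ℕ, D ≤ n → ∀ η : Measure ℝ, IsProbabilityMeasure η →
      η.map (fun x => -x) = η → (1 + ε) * Real.log (n + 1) / (n + 1) ≤ nz η →
      depProb (rowLaw η (n + 1)) (n + 1) ≤ τ := by
  obtain ⟨θ, hθ⟩ : ∃ θ : ℝ, θ = ε / (2 * (1 + ε)) := ⟨_, rfl⟩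
  have hθ0 : 0 < θ := by
    rw [hθ]
    positivity
  have hθ2 : θ ≤ 1 / 2 := by
    rw [hθ, div_le_div_iff₀ (by positivity) (by norm_num)]
    linarith
  obtain ⟨r, hrdef⟩ : ∃ r : ℝ, r = Real.sqrt (Real.sqrt (1 - θ / 4)) := ⟨_, rfl⟩
  have hr : 1 - θ / 4 = r ^ 4 := by
    have : r ^ 4 = (r ^ 2) ^ 2 := by ring
    rw [this, hrdef, Real.sq_sqrt (Real.sqrt_nonneg _), Real.sq_sqrt (by linarith)]
  have hr0 : 0 < r := by
    rw [hrdef]
    exact Real.sqrt_pos.2 (Real.sqrt_pos.2 (by linarith))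
  have hr1 : r < 1 := by
    by_contra hcon
    have := one_le_pow₀ (n := 4) (not_lt.1 hcon)
    linarith
  obtain ⟨L⟩ := exists_largeParams r hr0 hr1
  have hN4 := L.hN
  have hN1 : 1 ≤ L.N := by omega
  have hNR : (0 : ℝ) < L.N := by exact_mod_cast hN1
  -- choose K
  obtain ⟨K, hK1, hK⟩ : ∃ K : ℕ, 1 ≤ K ∧ (L.N : ℝ) * (1 / Real.sqrt K) ≤ τ / 2 := by
    have ht : Tendsto (fun K : ℕ => (L.N : ℝ) * (1 / Real.sqrt K)) atTop (𝓝 0) := by
      have h1 : Tendsto (fun K : ℕ => Real.sqrt (K : ℝ)) atTop atTop :=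
        Real.tendsto_sqrt_atTop.comp tendsto_natCast_atTop_atTop
      have h2 : Tendsto (fun K : ℕ => (Real.sqrt (K : ℝ))⁻¹) atTop (𝓝 0) :=
        tendsto_inv_atTop_zero.comp h1
      have h3 := h2.const_mul (L.N : ℝ)
      simpa [one_div] using h3
    have hev := ht.eventually (gt_mem_nhds (show (0 : ℝ) < τ / 2 by positivity))
    obtain ⟨K, hK⟩ := (hev.and (eventually_ge_atTop 1)).exists
    exact ⟨K, hK.2, hK.1.le⟩
  have hKR : (0 : ℝ) < K := by exact_mod_cast hK1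
  have hcast : Tendsto (fun n : ℕ => Real.log ((n : ℝ) + 1)) atTop atTop := by
    apply Real.tendsto_log_atTop.comp
    exact tendsto_atTop_add_const_right _ _ tendsto_natCast_atTop_atTop
  have hRt : Tendsto (fun n : ℕ => Real.exp (-(ε / 2) * Real.log (n + 1) + (1 + ε / 2)))
      atTop (𝓝 0) := by
    apply Real.tendsto_exp_atBot.comp
    apply tendsto_atBot_add_const_right
    exact hcast.const_mul_atTop_of_neg (by linarith)
  have hpow : Tendsto (fun n : ℕ => ((n : ℝ) + 1) * r ^ (n + 1)) atTop (𝓝 0) := by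
    have := (tendsto_self_mul_const_pow_of_lt_one hr0.le hr1).comp (tendsto_add_atTop_nat 1)
    refine this.congr fun n => ?_
    simp
  have hLO : Tendsto (fun n : ℕ => (K : ℝ) *
      Real.exp (1 - (1 + ε) * Real.log (n + 1) / (L.N * K))) atTop (𝓝 0) := by
    have h1 : Tendsto (fun n : ℕ => Real.exp (1 - (1 + ε) * Real.log (n + 1) / (L.N * K)))
        atTop (𝓝 0) := by
      apply Real.tendsto_exp_atBot.comp
      have h2 : Tendsto (fun n : ℕ => (-((1 + ε) / (L.N * K))) * Real.log ((n : ℝ) + 1) + 1)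
          atTop atBot := by
        apply tendsto_atBot_add_const_right
        apply hcast.const_mul_atTop_of_neg
        have : 0 < (1 + ε) / (L.N * K) := by positivity
        linarith
      refine h2.congr fun n => ?_
      ring
    simpa using h1.const_mul (K : ℝ)
  have hall : Tendsto (fun n : ℕ =>
      (1 + L.N : ℝ) * (2 * Real.exp (-(ε / 2) * Real.log (n + 1) + (1 + ε / 2)) +
        ((n : ℝ) + 1) * r ^ (n + 1)) +
      L.N * ((K : ℝ) * Real.exp (1 - (1 + ε) * Real.log (n + 1) / (L.N * K)))) atTop (𝓝 0) := by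
    have := (((hRt.const_mul 2).add hpow).const_mul (1 + L.N : ℝ)).add (hLO.const_mul (L.N : ℝ))
    simpa using this
  have hev := (hall.eventually (gt_mem_nhds (show (0 : ℝ) < τ / 2 by positivity))).and
    ((hRt.eventually (gt_mem_nhds (show (0 : ℝ) < 1 / 2 by norm_num))).and
      (eventually_ge_atTop 1))
  obtain ⟨D, hD⟩ := eventually_atTop.1 hev
  refine ⟨D, fun n hn η hprob hη ha => ?_⟩
  obtain ⟨hf, hR2, hn1⟩ := hD n hn
  obtain ⟨R, hR⟩ : ∃ R : ℝ, R = Real.exp (-(ε / 2) * Real.log (n + 1) + (1 + ε / 2)) := ⟨_, rfl⟩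
  rw [← hR] at hf hR2
  have hsmall := smallCol_bound η hη hε hθ hr0 hr1 hr L hn1 ha hR hR2.le
  obtain ⟨E, hE⟩ : ∃ E : ℝ, E = (K : ℝ) * Real.exp (1 - (1 + ε) * Real.log (n + 1) / (L.N * K)) :=
    ⟨_, rfl⟩
  rw [← hE] at hf
  have hE0 : 0 ≤ E := by
    rw [hE]
    positivity
  have hdep := depProb_le η (n := n) (k := (n + 1) / L.N) (E + 1 / Real.sqrt K) (by positivity)
    (fun w hw => by
      rw [hE]
      exact lo_bound η hη hε hN1 hK1 ha w hw)
  set q := (Measure.pi fun _ : Fin n => rowLaw η (n + 1)).real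
    (SmallCol n (n + 1) ((n + 1) / L.N)) with hq
  have hq0 : 0 ≤ q := measureReal_nonneg
  have hratio : ((n : ℝ) + 1) / (((n + 1) / L.N : ℕ) + 1) ≤ L.N := by
    rw [div_le_iff₀ (by positivity)]
    have := Nat.lt_div_mul_add (a := n + 1) (b := L.N) (by omega)
    have h4 : (n + 1 : ℕ) ≤ L.N * ((n + 1) / L.N + 1) := by
      rw [mul_add, mul_one, mul_comm]
      exact this.le
    exact_mod_cast h4
  have hs0 : (0 : ℝ) ≤ 1 / Real.sqrt K := by positivity
  have h1 : ((n : ℝ) + 1) / (((n + 1) / L.N : ℕ) + 1) * (q + (E + 1 / Real.sqrt K)) ≤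
      L.N * (q + (E + 1 / Real.sqrt K)) :=
    mul_le_mul_of_nonneg_right hratio (by positivity)
  have h2 : (1 + (L.N : ℝ)) * q ≤ (1 + L.N) * (2 * R + (n + 1) * r ^ (n + 1)) :=
    mul_le_mul_of_nonneg_left hsmall (by positivity)
  calc depProb (rowLaw η (n + 1)) (n + 1)
      ≤ q + ((n : ℝ) + 1) / (((n + 1) / L.N : ℕ) + 1) * (q + (E + 1 / Real.sqrt K)) := hdep
    _ ≤ q + L.N * (q + (E + 1 / Real.sqrt K)) := by linarith
    _ = (1 + L.N) * q + L.N * E + L.N * (1 / Real.sqrt K) := by ring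
    _ ≤ τ := by linarith

end Pool.Agent.Lib.MP_f7f952_pr
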