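import Mathlib

/-!
# MP_f7f952_pr: definitions used in the statement of the result

`ξ` is a real random variable with law `μ`; `b` is a Bernoulli(`p`) random variable independent
of `ξ`; the `n * d` coordinates of `X_1, …, X_n` are i.i.d. copies of `b ξ`.
-/

open MeasureTheory Filter Topology

namespace Pool.Agent.Lib.MP_f7f952_pr

/-- The law of a Bernoulli(`p`) random variable: mass `1 - p` at `0` and mass `p` at `1`. -/
noncomputable def bernoulliLaw (p : ℝ) : Measure ℝ :=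
  ENNReal.ofReal (1 - p) • Measure.dirac 0 + ENNReal.ofReal p • Measure.dirac 1

/-- The law of `b * ξ`, where `b` is Bernoulli(`p`), `ξ` has law `μ`, and `b, ξ` are
independent. -/
noncomputable def sparseLaw (μ : Measure ℝ) (p : ℝ) : Measure ℝ :=
  ((bernoulliLaw p).prod μ).map (fun z => z.1 * z.2)

/-- `P_p(n,d) = P(0 ∉ conv {X_1, …, X_n})`, where the `n * d` coordinates `x (i, j)`
(`i < n`, `j < d`) are i.i.d. with the law of `b * ξ`, and `X_i = (x (i, j))_j`. -/
noncomputable def wendelProb (μ : Measure ℝ) (p : ℝ) (n d : ℕ) : ℝ :=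
  (Measure.pi (fun _ : Fin n × Fin d => sparseLaw μ p)).real
    {x | (0 : Fin d → ℝ) ∉ convexHull ℝ (Set.range fun (i : Fin n) (j : Fin d) => x (i, j))}

/-- `W(n,d) = 2^(-n+1) * ∑_{k=0}^{d-1} C(n-1,k)`. -/
noncomputable def wendelW (n d : ℕ) : ℝ :=
  (2 : ℝ) ^ (-(n : ℤ) + 1) * ∑ k ∈ Finset.range d, ((n - 1).choose k : ℝ)

/-- A sparsity sequence: `p d ∈ (0, 1]` for every `d ≥ 1`. -/
def IsSparsity (p : ℕ → ℝ) : Prop := ∀ d : ℕ, 1 ≤ d → 0 < p d ∧ p d ≤ 1

/-- The Wendel formula holds along the sparsity sequence `p` (and *breaks* along `p` if this is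
false): `sup_{n ≥ 1} |P_{p(d)}(n,d) - W(n,d)| → 0` as `d → ∞`. -/
def WendelHolds (μ : Measure ℝ) (p : ℕ → ℝ) : Prop :=
  Tendsto (fun d : ℕ => ⨆ n : {n : ℕ // 1 ≤ n}, |wendelProb μ (p d) n d - wendelW n d|)
    atTop (𝓝 0)

/-- `pc` is a critical sparsity (the definition of the problem): for every `ε > 0` the formula
holds along every sparsity sequence with `p d ≥ (1 + ε) * pc d` for all large `d`, and breaks along
every sparsity sequence with `p d ≤ (1 - ε) * pc d` for all large `d`. -/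
def IsCriticalSparsity (μ : Measure ℝ) (pc : ℕ → ℝ) : Prop :=
  ∀ ε : ℝ, 0 < ε →
    (∀ p : ℕ → ℝ, IsSparsity p → (∀ᶠ d in atTop, (1 + ε) * pc d ≤ p d) → WendelHolds μ p) ∧
    (∀ p : ℕ → ℝ, IsSparsity p → (∀ᶠ d in atTop, p d ≤ (1 - ε) * pc d) → ¬ WendelHolds μ p)

/-- A stronger notion: the formula already breaks along every sparsity sequence with
`p d ≤ (1 - ε) * pc d` for *infinitely many* `d`. -/
def IsStrongCriticalSparsity (μ : Measure ℝ) (pc : ℕ → ℝ) : Prop :=
  ∀ ε : ℝ, 0 < ε →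
    (∀ p : ℕ → ℝ, IsSparsity p → (∀ᶠ d in atTop, (1 + ε) * pc d ≤ p d) → WendelHolds μ p) ∧
    (∀ p : ℕ → ℝ, IsSparsity p → (∃ᶠ d in atTop, p d ≤ (1 - ε) * pc d) → ¬ WendelHolds μ p)

end Pool.Agent.Lib.MP_f7f952_pr
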