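import Mathlib
import Pool.Agent.Lib.MP_f7f952_pr.Defs
import Pool.Agent.Lib.MP_f7f952_pr.Asymp

/-!
# The critical sparsity for the Wendel formula
-/

open MeasureTheory Filter Topology

namespace Pool.Agent.Lib.MP_f7f952_pr

lemma isProb_bernoulliLaw {p : ℝ} (h0 : 0 ≤ p) (h1 : p ≤ 1) :
    IsProbabilityMeasure (bernoulliLaw p) := by
  constructor
  unfold bernoulliLaw
  rw [Measure.add_apply, Measure.smul_apply, Measure.smul_apply, measure_univ, measure_univ,
    smul_eq_mul, smul_eq_mul, mul_one, mul_one, ← ENNReal.ofReal_add (by linarith) h0]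
  simp

lemma isProb_sparseLaw (μ : Measure ℝ) [IsProbabilityMeasure μ] {p : ℝ} (h0 : 0 ≤ p)
    (h1 : p ≤ 1) : IsProbabilityMeasure (sparseLaw μ p) := by
  have := isProb_bernoulliLaw h0 h1
  unfold sparseLaw
  exact Measure.isProbabilityMeasure_map (by fun_prop)

lemma sparseLaw_symm (μ : Measure ℝ) [IsProbabilityMeasure μ] (hμ : μ.map (fun x => -x) = μ)
    {p : ℝ} (h0 : 0 ≤ p) (h1 : p ≤ 1) :
    (sparseLaw μ p).map (fun x => -x) = sparseLaw μ p := by
  have := isProb_bernoulliLaw h0 h1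
  unfold sparseLaw
  have hmp : MeasurePreserving (Prod.map (id : ℝ → ℝ) (fun x : ℝ => -x))
      ((bernoulliLaw p).prod μ) ((bernoulliLaw p).prod μ) :=
    (MeasurePreserving.id _).prod ⟨measurable_neg, hμ⟩
  rw [Measure.map_map (by fun_prop) (by fun_prop)]
  conv_rhs => rw [← hmp.map_eq]
  rw [Measure.map_map (by fun_prop) hmp.measurable]
  congr 1
  ext z
  simp

lemma nz_sparseLaw (μ : Measure ℝ) [IsProbabilityMeasure μ] {p : ℝ} (h0 : 0 ≤ p)
    (h1 : p ≤ 1) : nz (sparseLaw μ p) = p * μ.real {0}ᶜ := by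
  have := isProb_bernoulliLaw h0 h1
  unfold nz Measure.real sparseLaw
  rw [Measure.map_apply (by fun_prop) (measurableSet_singleton 0).compl]
  have : (fun z : ℝ × ℝ => z.1 * z.2) ⁻¹' {0}ᶜ = ({0}ᶜ : Set ℝ) ×ˢ ({0}ᶜ : Set ℝ) := by
    ext z
    simp [not_or]
  rw [this, Measure.prod_prod, ENNReal.toReal_mul]
  congr 1
  unfold bernoulliLaw
  rw [Measure.add_apply, Measure.smul_apply, Measure.smul_apply]
  simp [h0]

lemma wendelW_eq {n d : ℕ} :
    wendelW n d = 2 * (∑ k ∈ Finset.range d, ((n - 1).choose k : ℝ)) / 2 ^ n := by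
  unfold wendelW
  rw [zpow_add₀ (by norm_num), zpow_neg, zpow_natCast, zpow_one]
  field_simp

lemma measurableSet_wendel {n d : ℕ} :
    MeasurableSet {x : Fin n → Fin d → ℝ | (0 : Fin d → ℝ) ∉ convexHull ℝ (Set.range x)} := by
  have : {x : Fin n → Fin d → ℝ | (0 : Fin d → ℝ) ∉ convexHull ℝ (Set.range x)} =
      {x | Realizable (fam x) (fun _ => true)} := by
    ext x
    exact not_mem_convexHull_iff x
  rw [this]
  exact (isOpen_realizable _).measurableSet

lemma wendelProb_eq (μ : Measure ℝ) [IsProbabilityMeasure μ] {p : ℝ} (h0 : 0 ≤ p)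
    (h1 : p ≤ 1) (n d : ℕ) : wendelProb μ p n d =
      (Measure.pi fun _ : Fin n => rowLaw (sparseLaw μ p) d).real
        {x | (0 : Fin d → ℝ) ∉ convexHull ℝ (Set.range x)} := by
  have := isProb_sparseLaw μ h0 h1
  unfold wendelProb Measure.real
  rw [← (pi_prod_curry (m := n) (d := d) (sparseLaw μ p)).measure_preimage
    measurableSet_wendel.nullMeasurableSet]
  rfl

lemma abs_sub_le_depProb (μ : Measure ℝ) [IsProbabilityMeasure μ]
    (hμ : μ.map (fun x => -x) = μ) {p : ℝ} (h0 : 0 ≤ p) (h1 : p ≤ 1) {n d : ℕ} (hn : 1 ≤ n) :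
    |wendelProb μ p n d - wendelW n d| ≤ 2 * depProb (rowLaw (sparseLaw μ p) d) d := by
  have := isProb_sparseLaw μ h0 h1
  rw [wendelProb_eq μ h0 h1, wendelW_eq]
  exact reduction _ (rowLaw_symm _ (sparseLaw_symm μ hμ h0 h1)) hn

lemma depProb_le_one {d : ℕ} (ν : Measure (Fin d → ℝ)) [IsProbabilityMeasure ν] (m : ℕ) :
    depProb ν m ≤ 1 := measureReal_le_one

lemma bddAbove_abs (μ : Measure ℝ) [IsProbabilityMeasure μ]
    (hμ : μ.map (fun x => -x) = μ) {p : ℝ} (h0 : 0 ≤ p) (h1 : p ≤ 1) (d : ℕ) :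
    BddAbove (Set.range fun n : {n : ℕ // 1 ≤ n} => |wendelProb μ p n d - wendelW n d|) := by
  have := isProb_sparseLaw μ h0 h1
  refine ⟨2, ?_⟩
  rintro _ ⟨n, rfl⟩
  refine (abs_sub_le_depProb μ hμ h0 h1 n.2).trans ?_
  have := depProb_le_one (rowLaw (sparseLaw μ p) d) d
  linarith

/-- the value of Wendel's formula at `n = 2 d` -/
lemma wendelW_two_mul {d : ℕ} (hd : 1 ≤ d) : wendelW (2 * d) d = 1 / 2 := by
  obtain ⟨m, rfl⟩ : ∃ m, d = m + 1 := ⟨d - 1, by omega⟩
  rw [wendelW_eq]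
  have h := Nat.sum_range_choose_halfway m
  have e : 2 * (m + 1) - 1 = 2 * m + 1 := by omega
  rw [e]
  have h' : (∑ k ∈ Finset.range (m + 1), ((2 * m + 1).choose k : ℝ)) = 4 ^ m := by
    exact_mod_cast h
  rw [h']
  have : (2 : ℝ) ^ (2 * (m + 1)) = 4 * 4 ^ m := by
    rw [pow_mul, pow_succ]
    norm_num
    ring
  rw [this]
  have h4 : (4 : ℝ) ^ m ≠ 0 := by positivity
  field_simp
  norm_num

/-- if no row vanishes is unlikely then the Wendel probability is small -/
lemma wendel_le (μ : Measure ℝ) [IsProbabilityMeasure μ] {p : ℝ} (h0 : 0 ≤ p)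
    (h1 : p ≤ 1) (n d : ℕ) :
    wendelProb μ p n d ≤ (1 - (1 - p * μ.real {0}ᶜ) ^ d) ^ n := by
  have := isProb_sparseLaw μ h0 h1
  rw [wendelProb_eq μ h0 h1]
  set ν := rowLaw (sparseLaw μ p) d with hν
  have hsub : {x : Fin n → Fin d → ℝ | (0 : Fin d → ℝ) ∉ convexHull ℝ (Set.range x)} ⊆
      Set.univ.pi (fun _ : Fin n => ({0}ᶜ : Set (Fin d → ℝ))) := by
    intro x hx i _
    simp only [Set.mem_compl_iff, Set.mem_singleton_iff]
    intro h
    apply hx
    apply subset_convexHull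
    exact ⟨i, h⟩
  refine (measureReal_mono hsub (measure_ne_top _ _)).trans ?_
  have hpi : (Measure.pi fun _ : Fin n => ν).real
      (Set.univ.pi (fun _ : Fin n => ({0}ᶜ : Set (Fin d → ℝ)))) = (ν.real {0}ᶜ) ^ n := by
    unfold Measure.real
    rw [Measure.pi_pi, ENNReal.toReal_prod]
    simp
  rw [hpi]
  have hz : ν.real {0} = (1 - p * μ.real {0}ᶜ) ^ d := by
    have : ({0} : Set (Fin d → ℝ)) = Set.univ.pi (fun _ => {0}) := by
      ext y
      simp [funext_iff]
    rw [this, hν, real_pi_pi, real_zero, nz_sparseLaw μ h0 h1]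
    simp
  rw [probReal_compl_eq_one_sub (measurableSet_singleton 0), hz]

/-- the elementary estimate behind the lower bound -/
lemma exp_small {ε : ℝ} (hε : 0 < ε) (hε2 : ε ≤ 1 / 2) {τ : ℝ} (hτ : 0 < τ) :
    ∃ D : ℕ, 1 ≤ D ∧ ∀ d : ℕ, D ≤ d → ∀ a : ℝ, 0 ≤ a → a ≤ (1 - ε) * (Real.log d / d) →
      (1 - (1 - a) ^ d) ^ (2 * d) ≤ τ := by
  have hlogdiv : Tendsto (fun d : ℕ => Real.log (d : ℝ) / d) atTop (𝓝 0) :=
    (Real.isLittleO_log_id_atTop.tendsto_div_nhds_zero).comp tendsto_natCast_atTop_atTop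
  have hlog : Tendsto (fun d : ℕ => Real.log (d : ℝ)) atTop atTop :=
    Real.tendsto_log_atTop.comp tendsto_natCast_atTop_atTop
  have hexp : Tendsto (fun d : ℕ => Real.exp (-(2 * Real.exp ((ε / 2) * Real.log d)))) atTop
      (𝓝 0) := by
    apply Real.tendsto_exp_atBot.comp
    apply tendsto_neg_atTop_atBot.comp
    apply Tendsto.const_mul_atTop (by norm_num)
    exact Real.tendsto_exp_atTop.comp (hlog.const_mul_atTop (by linarith))
  have hev := (hlogdiv.eventually (gt_mem_nhds (show (0 : ℝ) < ε / 4 by positivity))).and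
    ((hexp.eventually (gt_mem_nhds hτ)).and (eventually_ge_atTop 1))
  obtain ⟨D, hD⟩ := eventually_atTop.1 hev
  refine ⟨max D 1, le_max_right _ _, fun d hd a ha0 ha => ?_⟩
  obtain ⟨h1, h2, h3⟩ := hD d (le_trans (le_max_left _ _) hd)
  have hd0 : (0 : ℝ) < d := by exact_mod_cast h3
  have hlog0 : 0 ≤ Real.log (d : ℝ) := Real.log_nonneg (by exact_mod_cast h3)
  have hl : 0 ≤ Real.log (d : ℝ) / d := by positivity
  have ha4 : a ≤ ε / 4 := by nlinarith
  have ha1 : 0 < 1 - a := by linarith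
  -- `(1 - a)^d ≥ exp (- a d / (1 - a))`
  have hlow : Real.exp (-(a / (1 - a))) ≤ 1 - a := by
    rw [Real.exp_neg, inv_le_comm₀ (Real.exp_pos _) ha1]
    have := Real.add_one_le_exp (a / (1 - a))
    have e : (1 - a)⁻¹ = a / (1 - a) + 1 := by
      field_simp
      ring
    rw [e]
    exact this
  have hlow2 : Real.exp (-((1 - ε / 2) * Real.log d)) ≤ (1 - a) ^ d := by
    calc Real.exp (-((1 - ε / 2) * Real.log d)) ≤ Real.exp (d * (-(a / (1 - a)))) := by
          apply Real.exp_le_exp.2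
          have h5 : a / (1 - a) ≤ (1 - ε / 2) * (Real.log d / d) := by
            rw [div_le_iff₀ ha1]
            have h6 : (1 - ε / 2) * (Real.log d / d) * (1 - ε / 4) ≤
                (1 - ε / 2) * (Real.log d / d) * (1 - a) := by
              apply mul_le_mul_of_nonneg_left (by linarith)
              have : 0 ≤ 1 - ε / 2 := by linarith
              positivity
            have h7 : (1 - ε) * (Real.log d / d) ≤
                (1 - ε / 2) * (Real.log d / d) * (1 - ε / 4) := by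
              have : (1 - ε) ≤ (1 - ε / 2) * (1 - ε / 4) := by nlinarith
              nlinarith
            linarith
          have h8 : (d : ℝ) * (a / (1 - a)) ≤ d * ((1 - ε / 2) * (Real.log d / d)) :=
            mul_le_mul_of_nonneg_left h5 hd0.le
          have h9 : (d : ℝ) * ((1 - ε / 2) * (Real.log d / d)) = (1 - ε / 2) * Real.log d := by
            field_simp
          linarith
      _ = (Real.exp (-(a / (1 - a)))) ^ d := by rw [← Real.exp_nat_mul]
      _ ≤ (1 - a) ^ d := pow_le_pow_left₀ (Real.exp_pos _).le hlow d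
  have hle1 : (1 - a) ^ d ≤ 1 := pow_le_one₀ ha1.le (by linarith)
  calc (1 - (1 - a) ^ d) ^ (2 * d) ≤ (Real.exp (-(1 - a) ^ d)) ^ (2 * d) := by
        apply pow_le_pow_left₀ (by linarith)
        have := Real.add_one_le_exp (-(1 - a) ^ d)
        linarith
    _ = Real.exp (-(2 * (d * (1 - a) ^ d))) := by
        rw [← Real.exp_nat_mul]
        congr 1
        push_cast
        ring
    _ ≤ Real.exp (-(2 * Real.exp ((ε / 2) * Real.log d))) := by
        apply Real.exp_le_exp.2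
        have h10 : Real.exp ((ε / 2) * Real.log d) = d * Real.exp (-((1 - ε / 2) * Real.log d)) := by
          rw [show (ε / 2) * Real.log d = Real.log d + -((1 - ε / 2) * Real.log d) by ring,
            Real.exp_add, Real.exp_log hd0]
        have h11 : (d : ℝ) * Real.exp (-((1 - ε / 2) * Real.log d)) ≤ d * (1 - a) ^ d :=
          mul_le_mul_of_nonneg_left hlow2 hd0.le
        rw [h10]
        linarith
    _ ≤ τ := h2.le

/-- **Uniform upper bound**: above the threshold the Wendel formula holds uniformly. -/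
theorem wendel_uniform_above (μ : Measure ℝ) [IsProbabilityMeasure μ]
    (hμ : μ.map (fun x => -x) = μ) (hμ0 : μ {0}ᶜ ≠ 0) {ε τ : ℝ} (hε : 0 < ε) (hτ : 0 < τ) :
    ∃ D : ℕ, ∀ d : ℕ, D ≤ d → ∀ p : ℝ, 0 < p → p ≤ 1 →
      (1 + ε) * (Real.log d / (μ.real {0}ᶜ * d)) ≤ p → ∀ n : ℕ, 1 ≤ n →
      |wendelProb μ p n d - wendelW n d| ≤ τ := by
  obtain ⟨D, hD⟩ := sing_tendsto hε (show (0 : ℝ) < τ / 2 by positivity)
  refine ⟨D + 1, fun d hd p hp0 hp1 hp n hn => ?_⟩
  obtain ⟨m, rfl⟩ : ∃ m, d = m + 1 := ⟨d - 1, by omega⟩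
  have hprob := isProb_sparseLaw μ hp0.le hp1
  have hπ : 0 < μ.real {0}ᶜ := by
    unfold Measure.real
    exact ENNReal.toReal_pos hμ0 (measure_ne_top _ _)
  refine (abs_sub_le_depProb μ hμ hp0.le hp1 hn).trans ?_
  have := hD m (by omega) (sparseLaw μ p) hprob (sparseLaw_symm μ hμ hp0.le hp1) ?_
  · linarith
  · rw [nz_sparseLaw μ hp0.le hp1]
    have h1 : (1 + ε) * (Real.log ((m + 1 : ℕ) : ℝ) / (μ.real {0}ᶜ * ((m + 1 : ℕ) : ℝ))) *
        μ.real {0}ᶜ ≤ p * μ.real {0}ᶜ := mul_le_mul_of_nonneg_right hp hπ.le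
    push_cast at h1
    refine le_trans (le_of_eq ?_) h1
    field_simp

/-- **Uniform lower bound**: below the threshold, `P_p(2d,d)` is uniformly small. -/
theorem wendel_uniform_below (μ : Measure ℝ) [IsProbabilityMeasure μ]
    (hμ0 : μ {0}ᶜ ≠ 0) {ε τ : ℝ} (hε : 0 < ε) (hτ : 0 < τ) :
    ∃ D : ℕ, 1 ≤ D ∧ ∀ d : ℕ, D ≤ d → ∀ p : ℝ, 0 < p → p ≤ 1 →
      p ≤ (1 - ε) * (Real.log d / (μ.real {0}ᶜ * d)) → wendelProb μ p (2 * d) d ≤ τ := by
  have hπ : 0 < μ.real {0}ᶜ := by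
    unfold Measure.real
    exact ENNReal.toReal_pos hμ0 (measure_ne_top _ _)
  obtain ⟨D, hD1, hD⟩ := exp_small (ε := min ε (1 / 2)) (by positivity) (min_le_right _ _) hτ
  refine ⟨D, hD1, fun d hd p hp0 hp1 hp => ?_⟩
  refine (wendel_le μ hp0.le hp1 _ _).trans ?_
  apply hD d hd _ (by positivity)
  have hd0 : (0 : ℝ) < d := by exact_mod_cast (le_trans hD1 hd)
  have hlog0 : 0 ≤ Real.log (d : ℝ) := Real.log_nonneg (by exact_mod_cast (le_trans hD1 hd))
  calc p * μ.real {0}ᶜ ≤ (1 - ε) * (Real.log d / (μ.real {0}ᶜ * d)) * μ.real {0}ᶜ :=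
        mul_le_mul_of_nonneg_right hp hπ.le
    _ = (1 - ε) * (Real.log d / d) := by field_simp
    _ ≤ (1 - min ε (1 / 2)) * (Real.log d / d) := by
        apply mul_le_mul_of_nonneg_right _ (by positivity)
        have := min_le_left ε (1 / 2)
        linarith

theorem strongCritical (μ : Measure ℝ) [IsProbabilityMeasure μ]
    (hμ : μ.map (fun x => -x) = μ) (hμ0 : μ {0}ᶜ ≠ 0) :
    IsStrongCriticalSparsity μ (fun d => Real.log d / (μ.real {0}ᶜ * d)) := by
  intro ε hε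
  refine ⟨fun p hp hev => ?_, fun p hp hfr hW => ?_⟩
  · unfold WendelHolds
    rw [Metric.tendsto_atTop]
    intro τ hτ
    obtain ⟨D, hD⟩ := wendel_uniform_above μ hμ hμ0 hε (show (0 : ℝ) < τ / 2 by positivity)
    obtain ⟨D', hD'⟩ := eventually_atTop.1 hev
    refine ⟨max (max D D') 1, fun d hd => ?_⟩
    have hd1 : 1 ≤ d := le_trans (le_max_right _ _) hd
    have hd2 : D ≤ d := le_trans (le_trans (le_max_left _ _) (le_max_left _ _)) hd
    have hd3 : D' ≤ d := le_trans (le_trans (le_max_right _ _) (le_max_left _ _)) hd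
    have hle : (⨆ n : {n : ℕ // 1 ≤ n}, |wendelProb μ (p d) n d - wendelW n d|) ≤ τ / 2 :=
      Real.iSup_le (fun n => hD d hd2 (p d) (hp d hd1).1 (hp d hd1).2 (hD' d hd3) n n.2)
        (by positivity)
    have hge : 0 ≤ (⨆ n : {n : ℕ // 1 ≤ n}, |wendelProb μ (p d) n d - wendelW n d|) :=
      Real.iSup_nonneg fun n => abs_nonneg _
    rw [Real.dist_eq, sub_zero, abs_of_nonneg hge]
    linarith
  · unfold WendelHolds at hW
    obtain ⟨D, hD1, hD⟩ := wendel_uniform_below μ hμ0 hε (show (0 : ℝ) < 1 / 4 by norm_num)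
    have hev := (hW.eventually (gt_mem_nhds (show (0 : ℝ) < 1 / 4 by norm_num))).and
      (eventually_ge_atTop D)
    obtain ⟨d, hd1, hd2, hd3⟩ := (hfr.and_eventually hev).exists
    have hd0 : 1 ≤ d := le_trans hD1 hd3
    obtain ⟨hp0, hp1⟩ := hp d hd0
    have h1 := hD d hd3 (p d) hp0 hp1 hd1
    have h2 : |wendelProb μ (p d) (2 * d) d - wendelW (2 * d) d| ≤
        ⨆ n : {n : ℕ // 1 ≤ n}, |wendelProb μ (p d) n d - wendelW n d| :=
      le_ciSup (bddAbove_abs μ hμ hp0.le hp1 d) (⟨2 * d, by omega⟩ : {n : ℕ // 1 ≤ n})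
    rw [wendelW_two_mul hd0] at h2
    have h3 := neg_abs_le (wendelProb μ (p d) (2 * d) d - 1 / 2)
    linarith

theorem critical_of_strong {μ : Measure ℝ} {pc : ℕ → ℝ} (h : IsStrongCriticalSparsity μ pc) :
    IsCriticalSparsity μ pc := fun ε hε =>
  ⟨(h ε hε).1, fun p hp hev => (h ε hε).2 p hp hev.frequently⟩

end Pool.Agent.Lib.MP_f7f952_pr
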