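import Mathlib
import Pool.Agent.Lib.MP_f7f952_pr.Final

/-!
# Uniqueness of the (strong) critical sparsity up to a factor `1 + o(1)`
-/

open MeasureTheory Filter Topology

namespace Pool.Agent.Lib.MP_f7f952_pr

lemma tendsto_pc {c : ℝ} (hc : 0 < c) :
    Tendsto (fun d : ℕ => Real.log (d : ℝ) / (c * d)) atTop (𝓝 0) := by
  have hlogdiv : Tendsto (fun d : ℕ => Real.log (d : ℝ) / d) atTop (𝓝 0) :=
    (Real.isLittleO_log_id_atTop.tendsto_div_nhds_zero).comp tendsto_natCast_atTop_atTop
  have := hlogdiv.const_mul (1 / c)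
  simp only [mul_zero] at this
  refine this.congr fun d => ?_
  field_simp

lemma pc_pos {c : ℝ} (hc : 0 < c) {d : ℕ} (hd : 2 ≤ d) : 0 < Real.log (d : ℝ) / (c * d) := by
  have h2 : (2 : ℝ) ≤ d := by exact_mod_cast hd
  have h0 : 0 < Real.log (d : ℝ) := Real.log_pos (by linarith)
  have h1 : (0 : ℝ) < d := by linarith
  positivity

theorem strongCritical_unique (μ : Measure ℝ) [IsProbabilityMeasure μ]
    (hμ : μ.map (fun x => -x) = μ) (hμ0 : μ {0}ᶜ ≠ 0) {q : ℕ → ℝ}
    (hq : IsStrongCriticalSparsity μ q) :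
    Tendsto (fun d => q d / (Real.log d / (μ.real {0}ᶜ * d))) atTop (𝓝 1) := by
  classical
  have hπ : 0 < μ.real {0}ᶜ := by
    unfold Measure.real
    exact ENNReal.toReal_pos hμ0 (measure_ne_top _ _)
  have hs := strongCritical μ hμ hμ0
  obtain ⟨pc, hpc⟩ : ∃ pc : ℕ → ℝ, pc = fun d : ℕ => Real.log d / (μ.real {0}ᶜ * d) := ⟨_, rfl⟩
  have hpcd : ∀ d : ℕ, Real.log d / (μ.real {0}ᶜ * d) = pc d := fun d => by rw [hpc]
  rw [← hpc] at hs
  have ht : Tendsto pc atTop (𝓝 0) := by
    rw [hpc]
    exact tendsto_pc hπ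
  have hpos : ∀ d, 2 ≤ d → 0 < pc d := fun d hd => by
    rw [hpc]
    exact pc_pos hπ hd
  simp only [hpcd]
  -- upper bound
  have hup : ∀ δ : ℝ, 0 < δ → ∀ᶠ d in atTop, q d ≤ (1 + δ) * pc d := by
    intro δ hδ
    by_contra hcon
    rw [not_eventually] at hcon
    set p : ℕ → ℝ := fun d => if 2 ≤ d then min 1 ((1 + δ / 2) * pc d) else 1 with hp
    have hsp : IsSparsity p := by
      intro d _
      rw [hp]
      by_cases h2 : 2 ≤ d
      · simp only [h2, if_true]
        have := hpos d h2
        exact ⟨by positivity, min_le_left _ _⟩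
      · simp only [h2, if_false]
        norm_num
    have hholds : WendelHolds μ p := by
      apply (hs (δ / 2) (by positivity)).1 p hsp
      have h1 : ∀ᶠ d in atTop, (1 + δ / 2) * pc d < 1 := by
        have := ht.const_mul (1 + δ / 2)
        rw [mul_zero] at this
        exact this.eventually (gt_mem_nhds one_pos)
      filter_upwards [h1, eventually_ge_atTop 2] with d hd1 hd2
      rw [hp]
      simp only [hd2, if_true]
      exact le_min hd1.le le_rfl
    have hbr : ¬ WendelHolds μ p := by
      apply (hq (δ / (2 * (1 + δ))) (by positivity)).2 p hsp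
      refine (hcon.and_eventually (eventually_ge_atTop 2)).mono ?_
      rintro d ⟨hd1, hd2⟩
      rw [hp]
      simp only [hd2, if_true]
      refine (min_le_right _ _).trans ?_
      have e : (1 - δ / (2 * (1 + δ))) * (1 + δ) = 1 + δ / 2 := by
        field_simp
        ring
      rw [← e, mul_assoc]
      apply mul_le_mul_of_nonneg_left (not_le.1 hd1).le
      rw [sub_nonneg, div_le_one (by positivity)]
      linarith
    exact hbr hholds
  -- lower bound
  have hlow : ∀ δ : ℝ, 0 < δ → δ < 1 → ∀ᶠ d in atTop, (1 - δ) * pc d ≤ q d := by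
    intro δ hδ hδ1
    by_contra hcon
    rw [not_eventually] at hcon
    have hδ' : 0 < 1 - δ := by linarith
    obtain ⟨e, he⟩ : ∃ e : ℝ, e = (δ / 2) / (1 - δ) := ⟨_, rfl⟩
    have he0 : 0 < e := by
      rw [he]
      positivity
    have he1 : (1 + e) * (1 - δ) = 1 - δ / 2 := by
      rw [he]
      field_simp
      ring
    set p : ℕ → ℝ := fun d => if 2 ≤ d then min 1 (max ((1 + e) * q d) ((1 - δ / 2) * pc d)) else 1
      with hp
    have hsp : IsSparsity p := by
      intro d _
      rw [hp]
      by_cases h2 : 2 ≤ d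
      · simp only [h2, if_true]
        have := hpos d h2
        have h3 : 0 < 1 - δ / 2 := by linarith
        refine ⟨lt_min one_pos (lt_max_of_lt_right (by positivity)), min_le_left _ _⟩
      · simp only [h2, if_false]
        norm_num
    have hholds : WendelHolds μ p := by
      apply (hq e he0).1 p hsp
      have h1 : ∀ᶠ d in atTop, (1 + e) * ((1 + 1) * pc d) < 1 := by
        have := (ht.const_mul (1 + 1)).const_mul (1 + e)
        rw [mul_zero, mul_zero] at this
        exact this.eventually (gt_mem_nhds one_pos)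
      filter_upwards [h1, hup 1 one_pos, eventually_ge_atTop 2] with d hd1 hd3 hd2
      rw [hp]
      simp only [hd2, if_true]
      refine le_min ?_ (le_max_left _ _)
      refine le_trans ?_ hd1.le
      exact mul_le_mul_of_nonneg_left hd3 (by positivity)
    have hbr : ¬ WendelHolds μ p := by
      apply (hs (δ / 2) (by positivity)).2 p hsp
      refine (hcon.and_eventually (eventually_ge_atTop 2)).mono ?_
      rintro d ⟨hd1, hd2⟩
      rw [hp]
      simp only [hd2, if_true]
      refine (min_le_right _ _).trans (max_le ?_ le_rfl)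
      rw [← he1, mul_assoc]
      exact mul_le_mul_of_nonneg_left (not_le.1 hd1).le (by positivity)
    exact hbr hholds
  rw [Metric.tendsto_atTop]
  intro τ hτ
  obtain ⟨δ, hδ⟩ : ∃ δ : ℝ, δ = min (τ / 2) (1 / 2) := ⟨_, rfl⟩
  have hδ0 : 0 < δ := by
    rw [hδ]
    positivity
  have hδ1 : δ < 1 := by
    rw [hδ]
    exact lt_of_le_of_lt (min_le_right _ _) (by norm_num)
  have hδτ : δ < τ := by
    rw [hδ]
    exact lt_of_le_of_lt (min_le_left _ _) (by linarith)
  obtain ⟨D, hD⟩ := eventually_atTop.1 ((hup δ hδ0).and (hlow δ hδ0 hδ1))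
  refine ⟨max D 2, fun d hd => ?_⟩
  obtain ⟨h1, h2⟩ := hD d (le_trans (le_max_left _ _) hd)
  have h3 := hpos d (le_trans (le_max_right _ _) hd)
  rw [Real.dist_eq, abs_lt]
  have h4 : q d / pc d ≤ 1 + δ := by
    rw [div_le_iff₀ h3]
    exact h1
  have h5 : 1 - δ ≤ q d / pc d := by
    rw [le_div_iff₀ h3]
    exact h2
  constructor <;> linarith

end Pool.Agent.Lib.MP_f7f952_pr
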